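import Mathlib

set_option autoImplicit false

/-!
# Covering by chip firing

`P` is an affine basis of `ℝ^d`, `b i` are integer vectors with `b i = ∑ j, t i j • (P j - P i)`,
`t i j ≥ 0`.
-/

namespace Pool.Agent.Lib.MP_d2370c_gt.OS

open Finset

variable {d : ℕ}

/-- an integer vector as a real vector -/
def toR (x : Fin d → ℤ) : Fin d → ℝ := fun l => (x l : ℝ)

theorem toR_add (x y : Fin d → ℤ) : toR (x + y) = toR x + toR y := by
  ext l; simp [toR]

theorem toR_sum {ι : Type*} (I : Finset ι) (b : ι → Fin d → ℤ) :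
    toR (∑ i ∈ I, b i) = ∑ i ∈ I, toR (b i) := by
  ext l; simp [toR, Finset.sum_apply]

variable (P : AffineBasis (Fin (d + 1)) ℝ (Fin d → ℝ))

theorem coord_lin (i j k : Fin (d + 1)) : (P.coord i).linear (P j - P k)
    = (if i = j then 1 else 0) - (if i = k then 1 else 0) := by
  have := (P.coord i).linearMap_vsub (P j) (P k)
  rw [vsub_eq_sub, vsub_eq_sub, P.coord_apply, P.coord_apply] at this
  exact this

theorem coord_add (i : Fin (d + 1)) (x z : Fin d → ℝ) :
    P.coord i (x + z) = P.coord i x + (P.coord i).linear z := by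
  have := (P.coord i).map_vadd x z
  rw [vadd_eq_add, vadd_eq_add, add_comm z x] at this
  rw [this, add_comm]

variable (b : Fin (d + 1) → Fin d → ℤ) (t : Fin (d + 1) → Fin (d + 1) → ℝ)

theorem lin_b (hb : ∀ i, toR (b i) = ∑ j, t i j • (P j - P i)) (k i : Fin (d + 1)) :
    (P.coord k).linear (toR (b i)) = t i k - (if k = i then ∑ j, t i j else 0) := by
  rw [hb i, map_sum]
  simp only [map_smul, coord_lin, smul_eq_mul, mul_sub, Finset.sum_sub_distrib, mul_ite, mul_one,
    mul_zero, Finset.sum_ite_eq, Finset.mem_univ, if_true]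
  by_cases h : k = i
  · simp [h]
  · simp [h]

theorem coord_add_sum (hb : ∀ i, toR (b i) = ∑ j, t i j • (P j - P i)) (k : Fin (d + 1))
    (x : Fin d → ℤ) (I : Finset (Fin (d + 1))) :
    P.coord k (toR (x + ∑ i ∈ I, b i))
      = P.coord k (toR x) + ∑ i ∈ I, t i k - (if k ∈ I then ∑ j, t k j else 0) := by
  rw [toR_add, coord_add, toR_sum, map_sum]
  simp only [lin_b P b t hb, Finset.sum_sub_distrib, Finset.sum_ite_eq]
  ring

theorem exists_start (s : Fin (d + 1)) : ∃ x : Fin d → ℤ, ∀ i, i ≠ s → 0 < P.coord i (toR x) := by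
  set C : ℝ := ∑ i, ∑ l, |(P.coord i).linear (Pi.single l 1)| with hC
  set p : Fin d → ℝ := P s + (C + 1) • ∑ j, (P j - P s) with hp
  have hp1 : ∀ i, i ≠ s → P.coord i p = C + 1 := by
    intro i hi
    rw [hp, coord_add, map_smul, map_sum]
    simp only [coord_lin, Finset.sum_sub_distrib, Finset.sum_ite_eq, Finset.mem_univ, if_true,
      if_neg hi, P.coord_apply, smul_eq_mul]
    simp
  refine ⟨fun l => ⌊p l⌋, fun i hi => ?_⟩
  have h1 : p = toR (fun l => ⌊p l⌋) + (fun l => Int.fract (p l)) := by
    ext l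
    simp [toR, Int.floor_add_fract]
  have h2 : P.coord i p = P.coord i (toR (fun l => ⌊p l⌋))
      + (P.coord i).linear (fun l => Int.fract (p l)) := by
    conv_lhs => rw [h1]
    exact coord_add P i _ _
  have h3 : (P.coord i).linear (fun l => Int.fract (p l)) ≤ C := by
    rw [LinearMap.pi_apply_eq_sum_univ (P.coord i).linear (fun l => Int.fract (p l))]
    calc ∑ l, Int.fract (p l) • (P.coord i).linear (fun j => if l = j then 1 else 0)
        ≤ ∑ l, |(P.coord i).linear (Pi.single l 1)| := by
          refine Finset.sum_le_sum fun l _ => ?_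
          have e : (fun j => if l = j then (1 : ℝ) else 0) = Pi.single l 1 := by
            ext j
            by_cases h : l = j
            · subst h; simp
            · rw [if_neg h, Pi.single_apply, if_neg (Ne.symm h)]
          rw [e, smul_eq_mul]
          calc Int.fract (p l) * (P.coord i).linear (Pi.single l 1)
              ≤ |Int.fract (p l) * (P.coord i).linear (Pi.single l 1)| := le_abs_self _
            _ = Int.fract (p l) * |(P.coord i).linear (Pi.single l 1)| := by
                rw [abs_mul, abs_of_nonneg (Int.fract_nonneg _)]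
            _ ≤ 1 * |(P.coord i).linear (Pi.single l 1)| :=
                mul_le_mul_of_nonneg_right (Int.fract_lt_one _).le (abs_nonneg _)
            _ = _ := one_mul _
      _ ≤ C := Finset.single_le_sum (f := fun i => ∑ l, |(P.coord i).linear (Pi.single l 1)|)
          (fun i _ => Finset.sum_nonneg fun l _ => abs_nonneg _) (Finset.mem_univ i)
  rw [hp1 i hi] at h2
  linarith

theorem finite_F (s : Fin (d + 1)) (c : ℝ) :
    {x : Fin d → ℤ | (∀ i, i ≠ s → 0 < P.coord i (toR x)) ∧ c ≤ P.coord s (toR x)}.Finite := by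
  set B : ℝ := ∑ i, ∑ l, (|c| + 1) * |P i l| with hB
  refine Set.Finite.subset (Set.Finite.pi' (t := fun _ : Fin d => Set.Icc (-⌈B⌉) ⌈B⌉)
    fun _ => Set.finite_Icc _ _) ?_
  rintro x ⟨hx1, hx2⟩ l
  have hsum := P.sum_coord_apply_eq_one (toR x)
  have hs : P.coord s (toR x) + ∑ i ∈ univ.erase s, P.coord i (toR x) = 1 := by
    rw [Finset.add_sum_erase _ (fun i => P.coord i (toR x)) (Finset.mem_univ s)]
    exact hsum
  have h0 : 0 ≤ ∑ i ∈ univ.erase s, P.coord i (toR x) :=
    Finset.sum_nonneg fun i hi => (hx1 i (Finset.ne_of_mem_erase hi)).le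
  have hc : ∀ i, |P.coord i (toR x)| ≤ |c| + 1 := by
    intro i
    by_cases hi : i = s
    · rw [hi, abs_le]
      constructor
      · have := neg_abs_le c; linarith
      · have := abs_nonneg c; linarith
    · rw [abs_of_pos (hx1 i hi)]
      have h1 : P.coord i (toR x) ≤ ∑ i ∈ univ.erase s, P.coord i (toR x) :=
        Finset.single_le_sum (f := fun i => P.coord i (toR x))
          (fun j hj => (hx1 j (Finset.ne_of_mem_erase hj)).le)
          (Finset.mem_erase.2 ⟨hi, Finset.mem_univ i⟩)
      have := neg_abs_le c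
      linarith
  have hx : (x l : ℝ) = ∑ i, P.coord i (toR x) * P i l := by
    have := congrFun (P.linear_combination_coord_eq_self (toR x)) l
    simp only [Finset.sum_apply, Pi.smul_apply, smul_eq_mul] at this
    rw [this]
    rfl
  have hB1 : |(x l : ℝ)| ≤ B := by
    rw [hx]
    calc |∑ i, P.coord i (toR x) * P i l| ≤ ∑ i, |P.coord i (toR x) * P i l| :=
          Finset.abs_sum_le_sum_abs _ _
      _ ≤ ∑ i, ∑ l, (|c| + 1) * |P i l| := by
          refine Finset.sum_le_sum fun i _ => ?_
          rw [abs_mul]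
          refine le_trans (mul_le_mul_of_nonneg_right (hc i) (abs_nonneg _)) ?_
          exact Finset.single_le_sum (f := fun l => (|c| + 1) * |P i l|)
            (fun l _ => by positivity) (Finset.mem_univ l)
  rw [Set.mem_Icc]
  have h1 := abs_le.1 hB1
  have h2 := Int.le_ceil B
  constructor
  · have : ((-⌈B⌉ : ℤ) : ℝ) ≤ (x l : ℝ) := by push_cast; linarith
    exact_mod_cast this
  · have : (x l : ℝ) ≤ ((⌈B⌉ : ℤ) : ℝ) := by linarith
    exact_mod_cast this

/-- The reduced point. -/
theorem exists_reduced (ht : ∀ i j, 0 ≤ t i j)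
    (hb : ∀ i, toR (b i) = ∑ j, t i j • (P j - P i)) (s : Fin (d + 1))
    (y : Fin d → ℝ) (hy : ∀ i, i ≠ s → 0 < ∑ l, y l * (b i l : ℝ)) :
    ∃ x : Fin d → ℤ, (∀ i, i ≠ s → 0 < P.coord i (toR x)) ∧
      ∀ I : Finset (Fin (d + 1)), s ∉ I → I.Nonempty →
        ∃ k ∈ I, P.coord k (toR x) ≤ ∑ j, t k j - ∑ i ∈ I, t i k := by
  obtain ⟨x0, hx0⟩ := exists_start P s
  set F : Set (Fin d → ℤ) := {x : Fin d → ℤ | (∀ i, i ≠ s → 0 < P.coord i (toR x)) ∧
    P.coord s (toR x0) ≤ P.coord s (toR x)} with hF
  have hfin : F.Finite := finite_F P s _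
  have hne : F.Nonempty := ⟨x0, hx0, le_rfl⟩
  obtain ⟨x, hxF, hmax⟩ := Set.exists_max_image F (fun x => ∑ l, y l * (x l : ℝ)) hfin hne
  refine ⟨x, hxF.1, fun I hsI hI => ?_⟩
  by_contra hcon
  push Not at hcon
  have hmem : x + ∑ i ∈ I, b i ∈ F := by
    refine ⟨fun k hk => ?_, ?_⟩
    · rw [coord_add_sum P b t hb]
      by_cases hkI : k ∈ I
      · rw [if_pos hkI]
        have := hcon k hkI
        linarith
      · rw [if_neg hkI, sub_zero]
        have h1 := hxF.1 k hk
        have h2 : 0 ≤ ∑ i ∈ I, t i k := Finset.sum_nonneg fun i _ => ht i k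
        linarith
    · rw [coord_add_sum P b t hb, if_neg hsI, sub_zero]
      have h1 := hxF.2
      have h2 : 0 ≤ ∑ i ∈ I, t i s := Finset.sum_nonneg fun i _ => ht i s
      linarith
  have h1 := hmax _ hmem
  have h2 : ∑ l, y l * (((x + ∑ i ∈ I, b i) l : ℤ) : ℝ)
      = ∑ l, y l * (x l : ℝ) + ∑ i ∈ I, ∑ l, y l * (b i l : ℝ) := by
    rw [Finset.sum_comm, ← Finset.sum_add_distrib]
    refine Finset.sum_congr rfl fun l _ => ?_
    rw [Pi.add_apply, Finset.sum_apply]
    push_cast
    rw [mul_add, Finset.mul_sum]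
  have h3 : 0 < ∑ i ∈ I, ∑ l, y l * (b i l : ℝ) :=
    Finset.sum_pos (fun i hi => hy i (fun h => hsI (h ▸ hi))) hI
  rw [h2] at h1
  linarith

/-- The burning order. -/
theorem exists_order (w : Fin (d + 1) → ℝ) (s : Fin (d + 1))
    (h : ∀ I : Finset (Fin (d + 1)), s ∉ I → I.Nonempty → ∃ k ∈ I, w k ≤ ∑ i ∈ Iᶜ, t i k) :
    ∃ r : Fin (d + 1) → ℕ, Function.Injective r ∧ (∀ i, i ≠ s → r s < r i) ∧
      ∀ k, k ≠ s → w k ≤ ∑ i, if r i < r k then t i k else 0 := by
  have main : ∀ m : ℕ, ∀ U : Finset (Fin (d + 1)), s ∈ U → U.card = m →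
      ∀ (r : Fin (d + 1) → ℕ) (N : ℕ), (∀ i ∈ U, ∀ j ∈ U, r i = r j → i = j) →
      (∀ i ∈ U, r i < N) → (∀ i, i ∉ U → r i = N) →
      (∀ i ∈ U, i ≠ s → r s < r i) →
      (∀ k ∈ U, k ≠ s → w k ≤ ∑ i, if r i < r k then t i k else 0) →
      ∃ r : Fin (d + 1) → ℕ, Function.Injective r ∧ (∀ i, i ≠ s → r s < r i) ∧
        ∀ k, k ≠ s → w k ≤ ∑ i, if r i < r k then t i k else 0 := by
    intro m
    induction hn : (d + 1 - m) using Nat.strong_induction_on generalizing m with
    | _ n ih =>
      intro U hsU hU r N hinj h1 h2 h3 h4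
      by_cases hfull : Uᶜ.Nonempty
      · obtain ⟨k, hk, hwk⟩ := h Uᶜ (by simpa using hsU) hfull
        rw [compl_compl] at hwk
        have hkU : k ∉ U := by simpa using hk
        set r' : Fin (d + 1) → ℕ := fun i => if i ∈ U then r i else if i = k then N else N + 1
          with hr'
        have r1 : ∀ i ∈ U, r' i = r i := fun i hi => by simp [hr', hi]
        have r2 : r' k = N := by simp [hr', hkU]
        have r3 : ∀ i, i ∉ U → i ≠ k → r' i = N + 1 := fun i hi hik => by simp [hr', hi, hik]
        have hcard : (insert k U).card = m + 1 := by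
          rw [Finset.card_insert_of_notMem hkU, hU]
        have hle : m + 1 ≤ d + 1 := by
          rw [← hcard]
          exact (Finset.card_le_univ _).trans (by simp)
        refine ih (d + 1 - (m + 1)) (by omega) (m + 1) rfl (insert k U)
          (Finset.mem_insert_of_mem hsU) hcard r' (N + 1) ?_ ?_ ?_ ?_ ?_
        · intro i hi j hj hij
          rcases Finset.mem_insert.1 hi with hi' | hi'
          · rcases Finset.mem_insert.1 hj with hj' | hj'
            · rw [hi', hj']
            · rw [hi', r2, r1 j hj'] at hij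
              have := h1 j hj'
              omega
          · rcases Finset.mem_insert.1 hj with hj' | hj'
            · rw [hj', r2, r1 i hi'] at hij
              have := h1 i hi'
              omega
            · rw [r1 i hi', r1 j hj'] at hij
              exact hinj i hi' j hj' hij
        · intro i hi
          rcases Finset.mem_insert.1 hi with rfl | hi
          · rw [r2]; omega
          · rw [r1 i hi]; have := h1 i hi; omega
        · intro i hi
          rw [Finset.mem_insert, not_or] at hi
          exact r3 i hi.2 hi.1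
        · intro i hi his
          rcases Finset.mem_insert.1 hi with rfl | hi
          · rw [r2, r1 s hsU]; exact h1 s hsU
          · rw [r1 i hi, r1 s hsU]; exact h3 i hi his
        · intro j hj hjs
          rcases Finset.mem_insert.1 hj with rfl | hj
          · refine hwk.trans (le_of_eq ?_)
            rw [← Finset.sum_filter]
            refine Finset.sum_congr ?_ fun _ _ => rfl
            ext i
            simp only [Finset.mem_filter, Finset.mem_univ, true_and, r2]
            constructor
            · intro hi; rw [r1 i hi]; exact h1 i hi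
            · intro hi
              by_contra hiU
              by_cases hij : i = j
              · rw [hij, r2] at hi; omega
              · rw [r3 i hiU hij] at hi; omega
          · refine (h4 j hj hjs).trans (le_of_eq ?_)
            refine Finset.sum_congr rfl fun i _ => ?_
            have hjN := h1 j hj
            by_cases hiU : i ∈ U
            · rw [r1 i hiU, r1 j hj]
            · rw [r1 j hj, if_neg (by rw [h2 i hiU]; omega), if_neg]
              by_cases hik : i = k
              · rw [hik, r2]; omega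
              · rw [r3 i hiU hik]; omega
      · rw [Finset.not_nonempty_iff_eq_empty, Finset.compl_eq_empty_iff] at hfull
        subst hfull
        exact ⟨r, fun i j hij => hinj i (Finset.mem_univ _) j (Finset.mem_univ _) hij,
          fun i hi => h3 i (Finset.mem_univ _) hi, fun k hk => h4 k (Finset.mem_univ _) hk⟩
  refine main 1 {s} (Finset.mem_singleton_self s) (Finset.card_singleton s)
    (fun i => if i = s then 0 else 1) 1 ?_ ?_ ?_ ?_ ?_
  · intro i hi j hj _
    rw [Finset.mem_singleton] at hi hj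
    rw [hi, hj]
  · intro i hi
    rw [Finset.mem_singleton] at hi
    simp [hi]
  · intro i hi
    rw [Finset.mem_singleton] at hi
    simp [hi]
  · intro i hi his
    exact absurd (Finset.mem_singleton.1 hi) his
  · intro i hi his
    exact absurd (Finset.mem_singleton.1 hi) his

/-- Covering, general form. -/
theorem cover_out (ht : ∀ i j, 0 ≤ t i j)
    (hb : ∀ i, toR (b i) = ∑ j, t i j • (P j - P i)) (s : Fin (d + 1))
    (y : Fin d → ℝ) (hy : ∀ i, i ≠ s → 0 < ∑ l, y l * (b i l : ℝ))
    (hfree : ∀ x : Fin d → ℤ, ∃ i, P.coord i (toR x) ≤ 0) :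
    1 ≤ ∑ k ∈ univ.erase s, ∑ j, t k j := by
  obtain ⟨x, hx, hI⟩ := exists_reduced P b t ht hb s y hy
  obtain ⟨i, hi⟩ := hfree x
  have his : i = s := by
    by_contra h
    exact absurd hi (not_le.2 (hx i h))
  subst his
  have hsum := P.sum_coord_apply_eq_one (toR x)
  rw [← Finset.add_sum_erase _ (fun i => P.coord i (toR x)) (Finset.mem_univ i)] at hsum
  have h1 : ∑ k ∈ univ.erase i, P.coord k (toR x) ≤ ∑ k ∈ univ.erase i, ∑ j, t k j := by
    refine Finset.sum_le_sum fun k hk => ?_
    obtain ⟨k', hk', h⟩ := hI {k} (by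
      rw [Finset.mem_singleton]; exact (Finset.ne_of_mem_erase hk).symm) ⟨k, by simp⟩
    rw [Finset.mem_singleton] at hk'
    subst hk'
    rw [Finset.sum_singleton] at h
    have := ht k' k'
    linarith
  linarith

/-- Covering for Eulerian networks. -/
theorem cover_order (ht : ∀ i j, 0 ≤ t i j) (hE : ∀ i, ∑ j, t i j = ∑ j, t j i)
    (hb : ∀ i, toR (b i) = ∑ j, t i j • (P j - P i)) (s : Fin (d + 1))
    (y : Fin d → ℝ) (hy : ∀ i, i ≠ s → 0 < ∑ l, y l * (b i l : ℝ))
    (hfree : ∀ x : Fin d → ℤ, ∃ i, P.coord i (toR x) ≤ 0) :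
    ∃ r : Fin (d + 1) → ℕ, Function.Injective r ∧
      1 ≤ ∑ k, ∑ i, if r i < r k then t i k else 0 := by
  obtain ⟨x, hx, hI⟩ := exists_reduced P b t ht hb s y hy
  obtain ⟨i, hi⟩ := hfree x
  have his : i = s := by
    by_contra h
    exact absurd hi (not_le.2 (hx i h))
  subst his
  obtain ⟨r, hr0, hr1, hr2⟩ := exists_order t (fun k => P.coord k (toR x)) i (by
    intro I hiI hne
    obtain ⟨k, hk, h⟩ := hI I hiI hne
    refine ⟨k, hk, ?_⟩
    rw [hE k, ← Finset.sum_add_sum_compl I] at h
    linarith)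
  refine ⟨r, hr0, ?_⟩
  have hsum := P.sum_coord_apply_eq_one (toR x)
  rw [← Finset.add_sum_erase _ (fun i => P.coord i (toR x)) (Finset.mem_univ i)] at hsum
  have h1 : ∑ k ∈ univ.erase i, P.coord k (toR x)
      ≤ ∑ k ∈ univ.erase i, ∑ i, if r i < r k then t i k else 0 :=
    Finset.sum_le_sum fun k hk => hr2 k (Finset.ne_of_mem_erase hk)
  have h2 : ∑ k ∈ univ.erase i, ∑ i, (if r i < r k then t i k else 0)
      ≤ ∑ k, ∑ i, if r i < r k then t i k else 0 := by
    refine Finset.sum_le_sum_of_subset_of_nonneg (Finset.erase_subset _ _) fun k _ _ => ?_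
    refine Finset.sum_nonneg fun i _ => ?_
    split_ifs
    · exact ht i k
    · exact le_rfl
  linarith

end Pool.Agent.Lib.MP_d2370c_gt.OS
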