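import Pool.Agent.Lib.MP_d2370c_gt.OS.Net
import Pool.Agent.Lib.MP_d2370c_gt.OS.Cover

set_option autoImplicit false

/-!
# The width bound
-/

namespace Pool.Agent.Lib.MP_d2370c_gt.OS

open Finset Matrix

variable {d : ℕ}

/-- The data: a simplex, integer vectors pointing into it, multiplicities. -/
structure Dat (d : ℕ) where
  /-- vertices -/
  v : Fin (d + 1) → Fin d → ℝ
  /-- integer vectors -/
  b : Fin (d + 1) → Fin d → ℤ
  /-- coefficients -/
  t : Fin (d + 1) → Fin (d + 1) → ℝ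
  /-- multiplicities -/
  κ : Fin (d + 1) → ℕ
  /-- exponent -/
  e : ℕ
  ht : ∀ i j, 0 ≤ t i j
  htd : ∀ i, t i i = 0
  hb : ∀ i l, (b i l : ℝ) = ∑ j, t i j * (v j l - v i l)
  hκ : ∀ i, 1 ≤ κ i
  hsum : ∀ l, ∑ i, (κ i : ℤ) * b i l = 0
  he : 1 ≤ e
  hgen : ∀ z : Fin d → ℤ, ∃ m : Fin (d + 1) → ℤ, ∀ l, (e : ℤ) * z l = ∑ i, m i * b i l

namespace Dat

variable (D : Dat d)

/-- the flows -/
def f (i j : Fin (d + 1)) : ℝ := D.κ i * D.t i j

theorem f_nonneg (i j : Fin (d + 1)) : 0 ≤ D.f i j := mul_nonneg (Nat.cast_nonneg _) (D.ht i j)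

theorem κ_pos (i : Fin (d + 1)) : (0 : ℝ) < D.κ i := by
  have := D.hκ i
  exact_mod_cast this

theorem hsumR (l : Fin d) : ∑ i, (D.κ i : ℝ) * (D.b i l : ℝ) = 0 := by
  have := D.hsum l
  exact_mod_cast this

theorem flow_b (i : Fin (d + 1)) (l : Fin d) :
    ∑ j, D.f i j * (D.v j l - D.v i l) = D.κ i * (D.b i l : ℝ) := by
  rw [D.hb i l, Finset.mul_sum]
  refine Finset.sum_congr rfl fun j _ => ?_
  unfold f
  ring

/-- rows `b (k + 1)` -/
def Bm : Matrix (Fin d) (Fin d) ℝ := fun k l => (D.b k.succ l : ℝ)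

/-- rows `v (k + 1) - v 0` -/
def Wm : Matrix (Fin d) (Fin d) ℝ := fun k l => D.v k.succ l - D.v 0 l

theorem b_zero (l : Fin d) : (D.κ 0 : ℝ) * (D.b 0 l : ℝ) = - ∑ k : Fin d, (D.κ k.succ : ℝ) * D.b k.succ l := by
  have := D.hsumR l
  rw [Fin.sum_univ_succ] at this
  linarith

theorem isUnit_Bm : IsUnit D.Bm.det := by
  classical
  choose m hm using fun l0 : Fin d => D.hgen (Pi.single l0 1)
  set Mm : Matrix (Fin d) (Fin d) ℝ := fun l0 k => (m l0 k.succ : ℝ) - m l0 0 * D.κ k.succ / D.κ 0 with hMm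
  have hk0 := (D.κ_pos 0).ne'
  have h1 : Mm * D.Bm = (D.e : ℝ) • (1 : Matrix (Fin d) (Fin d) ℝ) := by
    ext l0 l
    rw [Matrix.mul_apply, Matrix.smul_apply, smul_eq_mul]
    have h2 := hm l0 l
    have h3 : (D.e : ℝ) * ((Pi.single l0 (1 : ℤ) : Fin d → ℤ) l : ℝ) = ∑ i, (m l0 i : ℝ) * (D.b i l : ℝ) := by
      exact_mod_cast h2
    have h4 : ((Pi.single l0 (1 : ℤ) : Fin d → ℤ) l : ℝ) = (1 : Matrix (Fin d) (Fin d) ℝ) l0 l := by
      rw [Matrix.one_apply, Pi.single_apply]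
      by_cases h : l = l0
      · simp [h]
      · rw [if_neg h, if_neg (Ne.symm h)]; simp
    rw [← h4, h3, Fin.sum_univ_succ]
    have h5 : (m l0 0 : ℝ) * (D.b 0 l : ℝ)
        = - ∑ k : Fin d, ((m l0 0 : ℝ) * (D.κ k.succ : ℝ) / (D.κ 0 : ℝ)) * (D.b k.succ l : ℝ) := by
      have h6 : (D.b 0 l : ℝ) = - (∑ k : Fin d, (D.κ k.succ : ℝ) * D.b k.succ l) / D.κ 0 := by
        rw [eq_div_iff hk0, mul_comm]
        exact D.b_zero l
      rw [h6, mul_div_assoc', mul_neg, Finset.mul_sum, neg_div, Finset.sum_div]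
      congr 1
      refine Finset.sum_congr rfl fun k _ => ?_
      field_simp
    rw [h5, ← Finset.sum_neg_distrib, ← Finset.sum_add_distrib]
    refine Finset.sum_congr rfl fun k _ => ?_
    simp only [hMm, Bm]
    ring
  have h2 : IsUnit (Mm * D.Bm).det := by
    rw [h1, Matrix.det_smul, Matrix.det_one, mul_one]
    have : (D.e : ℝ) ≠ 0 := by
      have := D.he
      positivity
    exact (pow_ne_zero _ this).isUnit
  rw [Matrix.det_mul] at h2
  exact isUnit_of_mul_isUnit_right h2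

theorem red_Wm : red D.f * D.Wm = -(Matrix.diagonal (fun k : Fin d => (D.κ k.succ : ℝ)) * D.Bm) := by
  ext k l
  have h1 : (red D.f * D.Wm) k l = (red D.f *ᵥ (fun m => D.Wm m l)) k := rfl
  rw [h1, red_mulVec, Matrix.neg_apply, Matrix.diagonal_mul]
  have h2 : ∀ j : Fin (d + 1), ext0 (fun m => D.Wm m l) j = D.v j l - D.v 0 l := by
    intro j
    refine Fin.cases ?_ (fun j => ?_) j
    · rw [ext0_zero, sub_self]
    · rw [ext0_succ]; rfl
  have h3 := D.flow_b k.succ l
  unfold Bm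
  rw [← h3, ← Finset.sum_neg_distrib]
  refine Finset.sum_congr rfl fun j _ => ?_
  rw [h2, h2]
  ring

theorem isUnit_mul : IsUnit ((red D.f).det * D.Wm.det) := by
  rw [← Matrix.det_mul, D.red_Wm, Matrix.det_neg, Matrix.det_mul, Matrix.det_diagonal]
  refine IsUnit.mul ?_ (IsUnit.mul ?_ D.isUnit_Bm)
  · exact (pow_ne_zero _ (by norm_num)).isUnit
  · exact (Finset.prod_ne_zero_iff.2 fun k _ => (D.κ_pos k.succ).ne').isUnit

theorem isUnit_red : IsUnit (red D.f).det := isUnit_of_mul_isUnit_left D.isUnit_mul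

theorem isUnit_Wm : IsUnit D.Wm.det := isUnit_of_mul_isUnit_right D.isUnit_mul

/-- `f` is Eulerian. -/
theorem eulerian (i : Fin (d + 1)) : ∑ j, D.f i j = ∑ j, D.f j i := by
  set x : Fin (d + 1) → ℝ := fun j => ∑ i, D.f i j - ∑ i, D.f j i with hx
  have h0 : ∑ j, x j = 0 := by
    rw [hx]
    simp only [Finset.sum_sub_distrib]
    rw [Finset.sum_comm, sub_self]
  have h1 : ∀ l, ∑ j, x j * D.v j l = 0 := by
    intro l
    have h2 : ∑ i, ∑ j, D.f i j * (D.v j l - D.v i l) = 0 := by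
      rw [← D.hsumR l]
      exact Finset.sum_congr rfl fun i _ => D.flow_b i l
    rw [← h2]
    have h3 : ∑ i, ∑ j, D.f i j * (D.v j l - D.v i l)
        = ∑ i, ∑ j, D.f i j * D.v j l - ∑ i, ∑ j, D.f i j * D.v i l := by
      rw [← Finset.sum_sub_distrib]
      refine Finset.sum_congr rfl fun i _ => ?_
      rw [← Finset.sum_sub_distrib]
      exact Finset.sum_congr rfl fun j _ => by ring
    rw [h3, Finset.sum_comm, ← Finset.sum_sub_distrib]
    refine Finset.sum_congr rfl fun j _ => ?_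
    rw [hx, ← Finset.sum_mul, ← Finset.sum_mul]
    ring
  have h2 : (fun k : Fin d => x k.succ) ᵥ* D.Wm = 0 := by
    ext l
    rw [Matrix.vecMul, dotProduct, Pi.zero_apply]
    have h3 := h1 l
    rw [Fin.sum_univ_succ] at h3
    rw [Fin.sum_univ_succ] at h0
    have h4 : ∑ k : Fin d, x k.succ * D.Wm k l
        = ∑ k : Fin d, x k.succ * D.v k.succ l - (∑ k : Fin d, x k.succ) * D.v 0 l := by
      rw [Finset.sum_mul, ← Finset.sum_sub_distrib]
      refine Finset.sum_congr rfl fun k _ => ?_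
      unfold Wm
      ring
    rw [h4]
    have h5 : ∑ k : Fin d, x k.succ = - x 0 := by linarith
    rw [h5]
    linarith
  have h3 : (fun k : Fin d => x k.succ) = 0 := by
    have h4 : ((fun k : Fin d => x k.succ) ᵥ* D.Wm) ᵥ* D.Wm⁻¹ = 0 := by rw [h2, Matrix.zero_vecMul]
    rwa [Matrix.vecMul_vecMul, Matrix.mul_nonsing_inv _ D.isUnit_Wm, Matrix.vecMul_one] at h4
  have h4 : ∀ k, x k = 0 := by
    intro k
    refine Fin.cases ?_ (fun k => ?_) k
    · rw [Fin.sum_univ_succ] at h0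
      have : ∑ k : Fin d, x k.succ = 0 := Finset.sum_eq_zero fun k _ => congrFun h3 k
      linarith
    · exact congrFun h3 k
  have := h4 i
  rw [hx] at this
  simp only at this
  linarith

theorem affInd : AffineIndependent ℝ D.v := by
  rw [affineIndependent_iff_linearIndependent_vsub ℝ D.v 0]
  have h1 : LinearIndependent ℝ D.Wm.row :=
    Matrix.linearIndependent_rows_of_isUnit ((Matrix.isUnit_iff_isUnit_det _).2 D.isUnit_Wm)
  have h2 : (fun k : Fin d => D.v k.succ -ᵥ D.v 0) = D.Wm.row := by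
    ext k l
    rfl
  let E : Fin d ≃ {x : Fin (d + 1) // x ≠ 0} := (finSuccAboveEquiv (0 : Fin (d + 1)))
  rw [← linearIndependent_equiv E]
  have h3 : ((fun i : {x : Fin (d + 1) // x ≠ 0} => D.v i -ᵥ D.v 0) ∘ E)
      = (fun k : Fin d => D.v k.succ -ᵥ D.v 0) := by
    ext k l
    simp [E, finSuccAboveEquiv_apply]
  rw [h3, h2]
  exact h1

/-- the affine basis of the vertices -/
noncomputable def P : AffineBasis (Fin (d + 1)) ℝ (Fin d → ℝ) where
  toFun := D.v
  ind' := D.affInd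
  tot' := by
    rw [D.affInd.affineSpan_eq_top_iff_card_eq_finrank_add_one]
    simp

theorem P_apply (i : Fin (d + 1)) : D.P i = D.v i := rfl

theorem hbP (i : Fin (d + 1)) : toR (D.b i) = ∑ j, D.t i j • (D.P j - D.P i) := by
  ext l
  rw [Finset.sum_apply]
  simp only [Pi.smul_apply, Pi.sub_apply, P_apply, smul_eq_mul]
  exact D.hb i l

/-- dual vectors -/
theorem exists_dual (ζ : Fin (d + 1) → ℝ) (hζ : ∑ i, (D.κ i : ℝ) * ζ i = 0) :
    ∃ y : Fin d → ℝ, ∀ i, ∑ l, y l * (D.b i l : ℝ) = ζ i := by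
  refine ⟨D.Bm⁻¹ *ᵥ (fun k => ζ k.succ), ?_⟩
  set y := D.Bm⁻¹ *ᵥ (fun k => ζ k.succ) with hy
  have h1 : D.Bm *ᵥ y = fun k => ζ k.succ := by
    rw [hy, Matrix.mulVec_mulVec, Matrix.mul_nonsing_inv _ D.isUnit_Bm, Matrix.one_mulVec]
  have h2 : ∀ k : Fin d, ∑ l, y l * (D.b k.succ l : ℝ) = ζ k.succ := by
    intro k
    rw [← congrFun h1 k, Matrix.mulVec, dotProduct]
    refine Finset.sum_congr rfl fun l _ => ?_
    unfold Bm
    ring
  intro i
  refine Fin.cases ?_ (fun k => h2 k) i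
  have hk0 := (D.κ_pos 0).ne'
  have h3 : (D.κ 0 : ℝ) * ∑ l, y l * (D.b 0 l : ℝ) = (D.κ 0 : ℝ) * ζ 0 := by
    have h4 : (D.κ 0 : ℝ) * ∑ l, y l * (D.b 0 l : ℝ) = - ∑ k : Fin d, (D.κ k.succ : ℝ) * ζ k.succ := by
      calc (D.κ 0 : ℝ) * ∑ l, y l * (D.b 0 l : ℝ)
          = ∑ l, y l * ((D.κ 0 : ℝ) * (D.b 0 l : ℝ)) := by
            rw [Finset.mul_sum]; exact Finset.sum_congr rfl fun l _ => by ring
        _ = ∑ l, y l * (- ∑ k : Fin d, (D.κ k.succ : ℝ) * D.b k.succ l) :=
            Finset.sum_congr rfl fun l _ => by rw [D.b_zero l]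
        _ = - ∑ l, ∑ k : Fin d, (D.κ k.succ : ℝ) * (y l * D.b k.succ l) := by
            rw [← Finset.sum_neg_distrib]
            refine Finset.sum_congr rfl fun l _ => ?_
            rw [mul_neg, Finset.mul_sum]
            congr 1
            exact Finset.sum_congr rfl fun k _ => by ring
        _ = - ∑ k : Fin d, (D.κ k.succ : ℝ) * ζ k.succ := by
            rw [Finset.sum_comm]
            congr 1
            refine Finset.sum_congr rfl fun k _ => ?_
            rw [← Finset.mul_sum, h2 k]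
    rw [h4]
    rw [Fin.sum_univ_succ] at hζ
    linarith
  exact mul_left_cancel₀ hk0 h3

theorem exists_pos (s : Fin (d + 1)) :
    ∃ y : Fin d → ℝ, ∀ i, i ≠ s → 0 < ∑ l, y l * (D.b i l : ℝ) := by
  obtain ⟨y, hy⟩ := D.exists_dual
    (fun i => if i = s then -(∑ i ∈ univ.erase s, (D.κ i : ℝ)) / D.κ s else 1) (by
      rw [← Finset.add_sum_erase _ _ (Finset.mem_univ s)]
      have h1 : ∑ i ∈ univ.erase s, (D.κ i : ℝ) *
          (if i = s then -(∑ i ∈ univ.erase s, (D.κ i : ℝ)) / D.κ s else 1)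
          = ∑ i ∈ univ.erase s, (D.κ i : ℝ) := by
        refine Finset.sum_congr rfl fun i hi => ?_
        rw [if_neg (Finset.ne_of_mem_erase hi), mul_one]
      rw [h1, if_pos rfl]
      have := (D.κ_pos s).ne'
      field_simp
      ring)
  refine ⟨y, fun i hi => ?_⟩
  rw [hy i, if_neg hi]
  exact one_pos

/-- the integer direction of the pair `i, j` and the width of the simplex in this direction -/
theorem exists_dir (i j : Fin (d + 1)) (hij : i ≠ j) :
    ∃ y : Fin d → ℤ, y ≠ 0 ∧ ∀ x ∈ convexHull ℝ (Set.range D.v), ∀ x' ∈ convexHull ℝ (Set.range D.v),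
      ∑ l, (x l - x' l) * (y l : ℝ) ≤ D.e * D.κ i * D.κ j * res D.f i j := by
  classical
  set z : Fin (d + 1) → ℤ := fun k => (if k = i then (D.κ j : ℤ) else 0) - (if k = j then (D.κ i : ℤ) else 0)
    with hz
  obtain ⟨y0, hy0⟩ := D.exists_dual (fun k => (z k : ℝ)) (by
    rw [hz]
    simp only [Int.cast_sub, Int.cast_ite, Int.cast_natCast, Int.cast_zero, mul_sub, mul_ite,
      mul_zero, Finset.sum_sub_distrib, Finset.sum_ite_eq', Finset.mem_univ, if_true]
    ring)
  choose m hm using fun l0 : Fin d => D.hgen (Pi.single l0 1)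
  set y : Fin d → ℤ := fun l => ∑ k, m l k * z k with hy
  have hyy : ∀ l, (y l : ℝ) = D.e * y0 l := by
    intro l
    have h1 : ∀ l', (D.e : ℝ) * ((Pi.single l (1 : ℤ) : Fin d → ℤ) l' : ℝ) = ∑ k, (m l k : ℝ) * (D.b k l' : ℝ) := by
      intro l'
      exact_mod_cast hm l l'
    have h2 : (D.e : ℝ) * y0 l = ∑ l', y0 l' * ((D.e : ℝ) * ((Pi.single l (1 : ℤ) : Fin d → ℤ) l' : ℝ)) := by
      rw [Finset.sum_eq_single l]
      · simp; ring
      · intro l' _ hl'
        rw [Pi.single_eq_of_ne hl']; simp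
      · intro h; exact absurd (Finset.mem_univ _) h
    rw [h2, hy]
    push_cast
    simp only [h1, Finset.mul_sum]
    rw [Finset.sum_comm]
    refine Finset.sum_congr rfl fun k _ => ?_
    rw [← hy0 k, Finset.mul_sum]
    exact Finset.sum_congr rfl fun l' _ => by ring
  have hyb : ∀ k, ∑ l, (y l : ℝ) * (D.b k l : ℝ) = D.e * z k := by
    intro k
    rw [← hy0 k, Finset.mul_sum]
    refine Finset.sum_congr rfl fun l _ => ?_
    rw [hyy]
    ring
  set η : Fin (d + 1) → ℝ := fun k => ∑ l, (y l : ℝ) * D.v k l with hη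
  have hflow : ∀ k, ∑ l, D.f k l * (η l - η k)
      = (if k = i then (D.e : ℝ) * D.κ i * D.κ j else 0) - (if k = j then (D.e : ℝ) * D.κ i * D.κ j else 0) := by
    intro k
    have h1 : ∑ l, D.f k l * (η l - η k) = D.κ k * (D.e * z k) := by
      rw [← hyb k, Finset.mul_sum]
      calc ∑ l, D.f k l * (η l - η k)
          = ∑ l, ∑ m, (y m : ℝ) * (D.f k l * (D.v l m - D.v k m)) := by
            refine Finset.sum_congr rfl fun l _ => ?_
            rw [hη]
            simp only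
            rw [← Finset.sum_sub_distrib, Finset.mul_sum]
            exact Finset.sum_congr rfl fun m _ => by ring
        _ = ∑ m, (y m : ℝ) * ∑ l, D.f k l * (D.v l m - D.v k m) := by
            rw [Finset.sum_comm]
            exact Finset.sum_congr rfl fun m _ => by rw [Finset.mul_sum]
        _ = ∑ m, (D.κ k : ℝ) * ((y m : ℝ) * (D.b k m : ℝ)) := by
            refine Finset.sum_congr rfl fun m _ => ?_
            rw [D.flow_b k m]
            ring
    rw [h1, hz]
    simp only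
    push_cast
    by_cases hki : k = i
    · have hkj : k ≠ j := fun h => hij (hki.symm.trans h)
      subst hki
      rw [if_pos rfl, if_neg hkj, if_pos rfl, if_neg hkj]
      ring
    · by_cases hkj : k = j
      · subst hkj
        rw [if_neg hki, if_pos rfl, if_neg hki, if_pos rfl]
        ring
      · rw [if_neg hki, if_neg hkj, if_neg hki, if_neg hkj]
        ring
  have hc : (0 : ℝ) ≤ (D.e : ℝ) * D.κ i * D.κ j := by positivity
  have hmax : ∀ k, η k ≤ η j := max_principle D.f D.eulerian D.f_nonneg D.isUnit_red η i j _ hc hflow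
  have hmin : ∀ k, η i ≤ η k := by
    intro k
    have := max_principle D.f D.eulerian D.f_nonneg D.isUnit_red (fun k => - η k) j i _ hc (by
      intro k
      have h1 := hflow k
      have h2 : ∑ l, D.f k l * (-η l - -η k) = - ∑ l, D.f k l * (η l - η k) := by
        calc ∑ l, D.f k l * (-η l - -η k) = ∑ l, (-1) * (D.f k l * (η l - η k)) :=
              Finset.sum_congr rfl fun l _ => by
                generalize η l = a
                generalize η k = a'
                ring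
          _ = (-1) * ∑ l, D.f k l * (η l - η k) := (Finset.mul_sum _ _ _).symm
          _ = _ := by ring
      rw [h2, h1]
      ring) k
    linarith
  have hpot := pot_eq D.f D.isUnit_red η i j _ hflow
  refine ⟨y, ?_, ?_⟩
  · intro h0
    have h1 := hyb i
    rw [h0] at h1
    have h2 : (z i : ℝ) = D.κ j := by
      rw [hz]
      simp [hij]
    rw [h2] at h1
    simp only [Pi.zero_apply, Int.cast_zero, zero_mul, Finset.sum_const_zero] at h1
    have h3 : (0 : ℝ) < D.e := by have := D.he; positivity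
    have h4 := mul_pos h3 (D.κ_pos j)
    linarith
  · have hup : ∀ x ∈ convexHull ℝ (Set.range D.v), ∑ l, x l * (y l : ℝ) ≤ η j := by
      have hconv : Convex ℝ {x : Fin d → ℝ | ∑ l, x l * (y l : ℝ) ≤ η j} := by
        intro x hx x' hx' a c ha hc' hac
        simp only [Set.mem_ofPred_eq] at hx hx' ⊢
        have : ∑ l, (a • x + c • x') l * (y l : ℝ) = a * ∑ l, x l * (y l : ℝ) + c * ∑ l, x' l * (y l : ℝ) := by
          rw [Finset.mul_sum, Finset.mul_sum, ← Finset.sum_add_distrib]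
          refine Finset.sum_congr rfl fun l _ => ?_
          simp only [Pi.add_apply, Pi.smul_apply, smul_eq_mul]
          ring
        rw [this]
        calc a * ∑ l, x l * (y l : ℝ) + c * ∑ l, x' l * (y l : ℝ) ≤ a * η j + c * η j := by gcongr
          _ = η j := by rw [← add_mul, hac, one_mul]
      intro x hx
      refine convexHull_min ?_ hconv hx
      rintro _ ⟨k, rfl⟩
      simp only [Set.mem_ofPred_eq]
      refine le_trans (le_of_eq ?_) (hmax k)
      rw [hη]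
      exact Finset.sum_congr rfl fun l _ => mul_comm _ _
    have hlo : ∀ x ∈ convexHull ℝ (Set.range D.v), η i ≤ ∑ l, x l * (y l : ℝ) := by
      have hconv : Convex ℝ {x : Fin d → ℝ | η i ≤ ∑ l, x l * (y l : ℝ)} := by
        intro x hx x' hx' a c ha hc' hac
        simp only [Set.mem_ofPred_eq] at hx hx' ⊢
        have : ∑ l, (a • x + c • x') l * (y l : ℝ) = a * ∑ l, x l * (y l : ℝ) + c * ∑ l, x' l * (y l : ℝ) := by
          rw [Finset.mul_sum, Finset.mul_sum, ← Finset.sum_add_distrib]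
          refine Finset.sum_congr rfl fun l _ => ?_
          simp only [Pi.add_apply, Pi.smul_apply, smul_eq_mul]
          ring
        rw [this]
        calc η i = a * η i + c * η i := by rw [← add_mul, hac, one_mul]
          _ ≤ _ := by gcongr
      intro x hx
      refine convexHull_min ?_ hconv hx
      rintro _ ⟨k, rfl⟩
      simp only [Set.mem_ofPred_eq]
      refine le_trans (hmin k) (le_of_eq ?_)
      rw [hη]
      exact Finset.sum_congr rfl fun l _ => mul_comm _ _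
    intro x hx x' hx'
    have h1 := hup x hx
    have h2 := hlo x' hx'
    rw [← hpot]
    have h3 : ∑ l, (x l - x' l) * (y l : ℝ) = ∑ l, x l * (y l : ℝ) - ∑ l, x' l * (y l : ℝ) := by
      rw [← Finset.sum_sub_distrib]
      exact Finset.sum_congr rfl fun l _ => by ring
    rw [h3]
    linarith

/-- the total weight -/
def W : ℝ := ∑ i, ∑ j, D.t i j

theorem exists_pair (hW : 0 < D.W) :
    ∃ i j, i ≠ j ∧ (D.κ i : ℝ) * res D.f i j ≤ 2 * d / D.W := by
  by_contra hcon
  push Not at hcon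
  have hfos := foster D.f D.eulerian D.f_nonneg D.isUnit_red
  have h1 : ∀ i j, 0 ≤ D.t i j * ((D.κ i : ℝ) * res D.f i j - 2 * d / D.W) := by
    intro i j
    by_cases hij : i = j
    · subst hij
      rw [D.htd, zero_mul]
    · exact mul_nonneg (D.ht i j) (sub_nonneg.2 (hcon i j hij).le)
  have h2 : ∑ i, ∑ j, D.t i j * ((D.κ i : ℝ) * res D.f i j - 2 * d / D.W) ≤ 0 := by
    have : ∑ i, ∑ j, D.t i j * ((D.κ i : ℝ) * res D.f i j - 2 * d / D.W)
        = ∑ i, ∑ j, D.f i j * res D.f i j - D.W * (2 * d / D.W) := by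
      rw [W, Finset.sum_mul, ← Finset.sum_sub_distrib]
      refine Finset.sum_congr rfl fun i _ => ?_
      rw [Finset.sum_mul, ← Finset.sum_sub_distrib]
      refine Finset.sum_congr rfl fun j _ => ?_
      unfold f
      ring
    rw [this, mul_div_cancel₀ _ hW.ne']
    linarith
  have h3 : ∑ i, ∑ j, D.t i j * ((D.κ i : ℝ) * res D.f i j - 2 * d / D.W) = 0 :=
    le_antisymm h2 (Finset.sum_nonneg fun i _ => Finset.sum_nonneg fun j _ => h1 i j)
  have h4 : ∀ i j, D.t i j = 0 := by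
    intro i j
    have h5 := (Finset.sum_eq_zero_iff_of_nonneg
      (fun i _ => Finset.sum_nonneg fun j _ => h1 i j)).1 h3 i (Finset.mem_univ i)
    have h6 := (Finset.sum_eq_zero_iff_of_nonneg (fun j _ => h1 i j)).1 h5 j (Finset.mem_univ j)
    by_cases hij : i = j
    · subst hij; exact D.htd i
    · rcases mul_eq_zero.1 h6 with h7 | h7
      · exact h7
      · have := hcon i j hij
        linarith
  have : D.W = 0 := Finset.sum_eq_zero fun i _ => Finset.sum_eq_zero fun j _ => h4 i j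
  linarith

/-- lattice-free in barycentric coordinates -/
theorem hfree {K : Set (Fin d → ℝ)} (hK : convexHull ℝ (Set.range D.v) ⊆ K)
    (h : ∀ z : Fin d → ℤ, (fun i => (z i : ℝ)) ∉ interior K) (x : Fin d → ℤ) :
    ∃ i, D.P.coord i (toR x) ≤ 0 := by
  by_contra hcon
  push Not at hcon
  have h1 : toR x ∈ interior (convexHull ℝ (Set.range D.P)) := by
    rw [D.P.interior_convexHull]
    exact hcon
  exact h x (interior_mono hK h1)

theorem width_of_pair {K : Set (Fin d → ℝ)} {c : ℝ} (hc : 0 ≤ c) (x₀ : Fin d → ℝ)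
    (hK : ∀ x ∈ K, ∃ s ∈ convexHull ℝ (Set.range D.v), x = x₀ + c • (s - x₀))
    (i j : Fin (d + 1)) (hij : i ≠ j) (B : ℝ) (hB : (D.e : ℝ) * D.κ i * D.κ j * res D.f i j * c ≤ B) :
    ∃ y : Fin d → ℤ, y ≠ 0 ∧ ∀ x ∈ K, ∀ x' ∈ K, ∑ l, (x l - x' l) * (y l : ℝ) ≤ B := by
  obtain ⟨y, hy0, hy⟩ := D.exists_dir i j hij
  refine ⟨y, hy0, fun x hx x' hx' => ?_⟩
  obtain ⟨s, hs, rfl⟩ := hK x hx
  obtain ⟨s', hs', rfl⟩ := hK x' hx'
  have h1 : ∑ l, ((x₀ + c • (s - x₀)) l - (x₀ + c • (s' - x₀)) l) * (y l : ℝ)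
      = (∑ l, (s l - s' l) * (y l : ℝ)) * c := by
    rw [Finset.sum_mul]
    refine Finset.sum_congr rfl fun l _ => ?_
    simp only [Pi.add_apply, Pi.smul_apply, Pi.sub_apply, smul_eq_mul]
    ring
  rw [h1]
  refine le_trans ?_ hB
  exact mul_le_mul_of_nonneg_right (hy s hs s' hs') hc

/-- The bound with the ordering constant. -/
theorem width_theta (hκ1 : ∀ i, D.κ i = 1) {K : Set (Fin d → ℝ)}
    (hK : convexHull ℝ (Set.range D.v) ⊆ K)
    (hfree : ∀ z : Fin d → ℤ, (fun i => (z i : ℝ)) ∉ interior K) {c : ℝ} (hc : 0 ≤ c)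
    (x₀ : Fin d → ℝ)
    (hK' : ∀ x ∈ K, ∃ s ∈ convexHull ℝ (Set.range D.v), x = x₀ + c • (s - x₀)) (θ : ℝ)
    (hθ : ∀ r : Fin (d + 1) → ℕ, Function.Injective r → ∑ i, ∑ j, (if r i < r j then D.t i j else 0) ≤ θ * ∑ i, ∑ j, D.t i j) :
    ∃ y : Fin d → ℤ, y ≠ 0 ∧ ∀ x ∈ K, ∀ x' ∈ K, ∑ l, (x l - x' l) * (y l : ℝ) ≤ 2 * θ * d * D.e * c := by
  have hft : D.f = D.t := by
    ext i j
    unfold f
    rw [hκ1 i]
    simp
  obtain ⟨y, hy⟩ := D.exists_pos 0
  obtain ⟨r, hr0, hr⟩ := cover_order D.P D.b D.t D.ht (fun i => by rw [← hft]; exact D.eulerian i) D.hbP 0 y hy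
    (D.hfree hK hfree)
  have h1 : 1 ≤ θ * D.W := by
    refine le_trans hr (le_trans (le_of_eq ?_) (hθ r hr0))
    rw [Finset.sum_comm]
  have hW0 : 0 ≤ D.W := Finset.sum_nonneg fun i _ => Finset.sum_nonneg fun j _ => D.ht i j
  have hW : 0 < D.W := by
    rcases eq_or_lt_of_le hW0 with h | h
    · rw [← h, mul_zero] at h1
      linarith
    · exact h
  obtain ⟨i, j, hij, hR⟩ := D.exists_pair hW
  refine D.width_of_pair hc x₀ hK' i j hij _ ?_
  have h2 : 2 * (d : ℝ) / D.W ≤ 2 * θ * d := by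
    rw [div_le_iff₀ hW]
    have hd : (0 : ℝ) ≤ d := Nat.cast_nonneg d
    nlinarith
  rw [hκ1 i, hκ1 j]
  rw [hκ1 i] at hR
  simp only [Nat.cast_one, mul_one, one_mul] at hR ⊢
  have he : (0 : ℝ) ≤ D.e := Nat.cast_nonneg _
  calc (D.e : ℝ) * res D.f i j * c ≤ D.e * (2 * θ * d) * c := by
        refine mul_le_mul_of_nonneg_right (mul_le_mul_of_nonneg_left (hR.trans h2) he) hc
    _ = 2 * θ * d * D.e * c := by ring

/-- The bound with multiplicities. -/
theorem width_mult (N : ℕ) (hN : ∀ i, D.κ i ≤ N) {K : Set (Fin d → ℝ)}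
    (hK : convexHull ℝ (Set.range D.v) ⊆ K)
    (hfree : ∀ z : Fin d → ℤ, (fun i => (z i : ℝ)) ∉ interior K) {c : ℝ} (hc : 0 ≤ c)
    (x₀ : Fin d → ℝ)
    (hK' : ∀ x ∈ K, ∃ s ∈ convexHull ℝ (Set.range D.v), x = x₀ + c • (s - x₀)) :
    ∃ y : Fin d → ℤ, y ≠ 0 ∧ ∀ x ∈ K, ∀ x' ∈ K,
      ∑ l, (x l - x' l) * (y l : ℝ) ≤ 2 * (d : ℝ) ^ 2 / (d + 1) * N * D.e * c := by
  have h1 : ∀ s, 1 ≤ D.W - ∑ j, D.t s j := by
    intro s
    obtain ⟨y, hy⟩ := D.exists_pos s
    have h := cover_out D.P D.b D.t D.ht D.hbP s y hy (D.hfree hK hfree)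
    have h2 : ∑ j, D.t s j + ∑ k ∈ univ.erase s, ∑ j, D.t k j = D.W :=
      Finset.add_sum_erase _ (fun k => ∑ j, D.t k j) (Finset.mem_univ s)
    linarith
  have h2 : (d : ℝ) + 1 ≤ d * D.W := by
    have h3 : ∑ _s : Fin (d + 1), (1 : ℝ) ≤ ∑ s, (D.W - ∑ j, D.t s j) := Finset.sum_le_sum fun s _ => h1 s
    rw [Finset.sum_sub_distrib] at h3
    have h4 : ∑ s, ∑ j, D.t s j = D.W := rfl
    rw [h4] at h3
    simp only [Finset.sum_const, Finset.card_univ, Fintype.card_fin, nsmul_eq_mul, mul_one] at h3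
    push_cast at h3
    linarith
  have hd0 : (0 : ℝ) ≤ d := Nat.cast_nonneg d
  have hW0 : 0 ≤ D.W := Finset.sum_nonneg fun i _ => Finset.sum_nonneg fun j _ => D.ht i j
  have hW : 0 < D.W := by
    rcases eq_or_lt_of_le hW0 with h | h
    · rw [← h, mul_zero] at h2
      linarith
    · exact h
  obtain ⟨i, j, hij, hR⟩ := D.exists_pair hW
  refine D.width_of_pair hc x₀ hK' i j hij _ ?_
  have h3 : 2 * (d : ℝ) / D.W ≤ 2 * (d : ℝ) ^ 2 / (d + 1) := by
    rw [div_le_div_iff₀ hW (by positivity)]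
    nlinarith
  have he : (0 : ℝ) ≤ D.e := Nat.cast_nonneg _
  have hNj : (D.κ j : ℝ) ≤ N := by exact_mod_cast hN j
  have hB : (0 : ℝ) ≤ 2 * (d : ℝ) ^ 2 / (d + 1) := by positivity
  calc (D.e : ℝ) * D.κ i * D.κ j * res D.f i j * c = (D.e * ((D.κ i * res D.f i j) * D.κ j)) * c := by ring
    _ ≤ (D.e * (2 * (d : ℝ) ^ 2 / (d + 1) * N)) * c := by
        refine mul_le_mul_of_nonneg_right (mul_le_mul_of_nonneg_left ?_ he) hc
        calc (D.κ i * res D.f i j) * (D.κ j : ℝ) ≤ 2 * (d : ℝ) ^ 2 / (d + 1) * (D.κ j : ℝ) :=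
              mul_le_mul_of_nonneg_right (hR.trans h3) (Nat.cast_nonneg _)
          _ ≤ 2 * (d : ℝ) ^ 2 / (d + 1) * N := mul_le_mul_of_nonneg_left hNj hB
    _ = _ := by ring

end Dat

end Pool.Agent.Lib.MP_d2370c_gt.OS
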