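import Mathlib

set_option autoImplicit false

/-!
# A trace inequality

If `A` is an invertible real matrix with `⟪x, A x⟫ ≥ 0` for all `x`, then `tr (A⁻¹ Aᵀ) ≤ d`.
-/

namespace Pool.Agent.Lib.MP_d2370c_gt.OS

open Matrix
open scoped MatrixOrder ComplexOrder

/-- If `A` is invertible with positive semidefinite symmetric part, then `tr (A⁻¹ (A + Aᵀ)) ≤ 2 d`. -/
theorem trace_inv_le {d : ℕ} (A : Matrix (Fin d) (Fin d) ℝ) (hA : IsUnit A.det)
    (hpos : ∀ x : Fin d → ℝ, 0 ≤ x ⬝ᵥ (A *ᵥ x)) : (A⁻¹ * (A + Aᵀ)).trace ≤ 2 * d := by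
  have hS : (A + Aᵀ).PosSemidef := by
    refine Matrix.PosSemidef.of_dotProduct_mulVec_nonneg ?_ ?_
    · ext i j
      simp [Matrix.add_apply, add_comm]
    · intro x
      have h1 : x ⬝ᵥ (Aᵀ *ᵥ x) = x ⬝ᵥ (A *ᵥ x) := by
        rw [Matrix.mulVec_transpose, dotProduct_comm, ← Matrix.dotProduct_mulVec]
      have h2 : star x = x := by
        ext i; simp
      rw [h2, Matrix.add_mulVec, dotProduct_add, h1]
      have := hpos x
      linarith
  obtain ⟨C, hC⟩ : ∃ C : Matrix (Fin d) (Fin d) ℝ, A + Aᵀ = Cᵀ * C := by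
    obtain ⟨C, hC⟩ := CStarAlgebra.nonneg_iff_eq_star_mul_self.mp hS.nonneg
    refine ⟨C, ?_⟩
    rw [hC]
    rfl
  set X : Matrix (Fin d) (Fin d) ℝ := C * A⁻¹ * Cᵀ with hX
  have hAA : A * A⁻¹ = 1 := Matrix.mul_nonsing_inv A hA
  have hAA' : A⁻¹ * A = 1 := Matrix.nonsing_inv_mul A hA
  have hT : Aᵀ * (A⁻¹)ᵀ = 1 := by rw [← Matrix.transpose_mul, hAA', Matrix.transpose_one]
  have hsum : X + Xᵀ = X * Xᵀ := by
    have e1 : X * Xᵀ = C * A⁻¹ * (Cᵀ * C) * (A⁻¹)ᵀ * Cᵀ := by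
      rw [hX]
      simp only [Matrix.transpose_mul, Matrix.transpose_transpose, Matrix.mul_assoc]
    have e2 : C * A⁻¹ * (Cᵀ * C) * (A⁻¹)ᵀ * Cᵀ = C * ((A⁻¹ * A) * (A⁻¹)ᵀ + A⁻¹ * (Aᵀ * (A⁻¹)ᵀ)) * Cᵀ := by
      rw [← hC]
      simp only [Matrix.mul_add, Matrix.add_mul, Matrix.mul_assoc]
    rw [e1, e2, hAA', hT, Matrix.one_mul, Matrix.mul_one, hX]
    simp only [Matrix.mul_add, Matrix.add_mul, Matrix.transpose_mul, Matrix.transpose_transpose,
      Matrix.mul_assoc]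
    rw [add_comm]
  have htr : (A⁻¹ * (A + Aᵀ)).trace = X.trace := by
    rw [hC, hX, ← Matrix.mul_assoc, Matrix.trace_mul_comm (A⁻¹ * Cᵀ) C, Matrix.mul_assoc]
  have h2 : 2 * X.trace = (X * Xᵀ).trace := by
    rw [← hsum, Matrix.trace_add, Matrix.trace_transpose]
    ring
  have h3 : ∑ i, (X i i) ^ 2 ≤ (X * Xᵀ).trace := by
    unfold Matrix.trace
    refine Finset.sum_le_sum fun i _ => ?_
    rw [Matrix.diag_apply, Matrix.mul_apply]
    simp only [Matrix.transpose_apply]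
    calc (X i i) ^ 2 = X i i * X i i := by ring
      _ ≤ ∑ j, X i j * X i j := Finset.single_le_sum (f := fun j => X i j * X i j)
          (fun j _ => mul_self_nonneg _) (Finset.mem_univ i)
  have h4 : 4 * X.trace - 4 * d ≤ ∑ i, (X i i) ^ 2 := by
    have : ∑ i : Fin d, (4 * X i i - 4) ≤ ∑ i, (X i i) ^ 2 :=
      Finset.sum_le_sum fun i _ => by nlinarith [sq_nonneg (X i i - 2)]
    refine le_trans (le_of_eq ?_) this
    rw [Finset.sum_sub_distrib, ← Finset.mul_sum]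
    simp [Matrix.trace, mul_comm]
  rw [htr]
  linarith

end Pool.Agent.Lib.MP_d2370c_gt.OS
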