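import Pool.Agent.Lib.MP_d2370c_gt.OS.Mat

set_option autoImplicit false

/-!
# Eulerian networks on `Fin (d + 1)`: reduced Laplacian, Foster's inequality, maximum principle
-/

namespace Pool.Agent.Lib.MP_d2370c_gt.OS

open Matrix Finset

variable {d : ℕ}

/-- The vector extended by the value `0` at the vertex `0`. -/
def ext0 (x : Fin d → ℝ) : Fin (d + 1) → ℝ := Fin.cons 0 x

/-- The reduced Laplacian of `f` (the vertex `0` is removed). -/
def red (f : Fin (d + 1) → Fin (d + 1) → ℝ) : Matrix (Fin d) (Fin d) ℝ :=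
  fun k l => (if k = l then ∑ j, f k.succ j else 0) - f k.succ l.succ

/-- The difference of two unit vectors, reduced. -/
def dlt (i j : Fin (d + 1)) : Fin d → ℝ :=
  fun k => (if k.succ = i then 1 else 0) - (if k.succ = j then 1 else 0)

/-- The effective resistance. -/
noncomputable def res (f : Fin (d + 1) → Fin (d + 1) → ℝ) (i j : Fin (d + 1)) : ℝ :=
  dlt i j ⬝ᵥ ((red f)⁻¹ *ᵥ dlt i j)

theorem ext0_zero (x : Fin d → ℝ) : ext0 x 0 = 0 := rfl

theorem ext0_succ (x : Fin d → ℝ) (k : Fin d) : ext0 x k.succ = x k := rfl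

theorem red_mulVec (f : Fin (d + 1) → Fin (d + 1) → ℝ) (x : Fin d → ℝ) (k : Fin d) :
    (red f *ᵥ x) k = ∑ j, f k.succ j * (ext0 x k.succ - ext0 x j) := by
  simp only [Matrix.mulVec, dotProduct, red, sub_mul, ite_mul, zero_mul, Finset.sum_sub_distrib,
    Finset.sum_ite_eq, Finset.mem_univ, if_true, mul_sub]
  rw [Fin.sum_univ_succ (fun j => f k.succ j * ext0 x j)]
  simp only [ext0_zero, ext0_succ, mul_zero, zero_add, Finset.sum_mul]

theorem dlt_dot (i j : Fin (d + 1)) (x : Fin d → ℝ) : dlt i j ⬝ᵥ x = ext0 x i - ext0 x j := by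
  have h : ∀ i : Fin (d + 1), ∑ k : Fin d, (if k.succ = i then (1 : ℝ) else 0) * x k = ext0 x i := by
    intro i
    refine Fin.cases ?_ (fun i => ?_) i
    · rw [ext0_zero]
      refine Finset.sum_eq_zero fun k _ => ?_
      rw [if_neg (Fin.succ_ne_zero k), zero_mul]
    · rw [ext0_succ]
      simp [Fin.succ_inj]
  simp only [dotProduct, dlt, sub_mul, Finset.sum_sub_distrib, h]

/-- The energy identity. -/
theorem energy (f : Fin (d + 1) → Fin (d + 1) → ℝ) (hE : ∀ i, ∑ j, f i j = ∑ j, f j i)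
    (φ : Fin (d + 1) → ℝ) :
    ∑ k, φ k * ∑ l, f k l * (φ l - φ k) = -(1 / 2) * ∑ k, ∑ l, f k l * (φ k - φ l) ^ 2 := by
  have h1 : ∑ k, ∑ l, f k l * (φ l) ^ 2 = ∑ k, ∑ l, f k l * (φ k) ^ 2 := by
    rw [Finset.sum_comm]
    refine Finset.sum_congr rfl fun k _ => ?_
    rw [← Finset.sum_mul, ← Finset.sum_mul, hE k]
  have h2 : ∑ k, ∑ l, f k l * (φ k - φ l) ^ 2
      = ∑ k, ∑ l, f k l * (φ k) ^ 2 + ∑ k, ∑ l, f k l * (φ l) ^ 2
        - 2 * ∑ k, ∑ l, f k l * (φ k * φ l) := by
    rw [Finset.mul_sum, ← Finset.sum_add_distrib, ← Finset.sum_sub_distrib]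
    refine Finset.sum_congr rfl fun k _ => ?_
    rw [Finset.mul_sum, ← Finset.sum_add_distrib, ← Finset.sum_sub_distrib]
    refine Finset.sum_congr rfl fun l _ => ?_
    ring
  have h3 : ∑ k, φ k * ∑ l, f k l * (φ l - φ k)
      = ∑ k, ∑ l, f k l * (φ k * φ l) - ∑ k, ∑ l, f k l * (φ k) ^ 2 := by
    rw [← Finset.sum_sub_distrib]
    refine Finset.sum_congr rfl fun k _ => ?_
    rw [Finset.mul_sum, ← Finset.sum_sub_distrib]
    refine Finset.sum_congr rfl fun l _ => ?_
    ring
  rw [h2, h3, h1]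
  ring

theorem red_nonneg (f : Fin (d + 1) → Fin (d + 1) → ℝ) (hE : ∀ i, ∑ j, f i j = ∑ j, f j i)
    (hf : ∀ i j, 0 ≤ f i j) (x : Fin d → ℝ) : 0 ≤ x ⬝ᵥ (red f *ᵥ x) := by
  have h := energy f hE (ext0 x)
  have h1 : x ⬝ᵥ (red f *ᵥ x) = - ∑ k, ext0 x k * ∑ l, f k l * (ext0 x l - ext0 x k) := by
    rw [Fin.sum_univ_succ, ext0_zero, zero_mul, zero_add, ← Finset.sum_neg_distrib]
    refine Finset.sum_congr rfl fun k _ => ?_
    rw [red_mulVec, ext0_succ, ← mul_neg, ← Finset.sum_neg_distrib]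
    congr 1
    refine Finset.sum_congr rfl fun l _ => ?_
    ring
  rw [h1, h]
  have : 0 ≤ ∑ k, ∑ l, f k l * (ext0 x k - ext0 x l) ^ 2 :=
    Finset.sum_nonneg fun k _ => Finset.sum_nonneg fun l _ => mul_nonneg (hf k l) (sq_nonneg _)
  linarith

theorem red_add_transpose (f : Fin (d + 1) → Fin (d + 1) → ℝ)
    (hE : ∀ i, ∑ j, f i j = ∑ j, f j i) (k l : Fin d) :
    (red f + (red f)ᵀ) k l = ∑ i, ∑ j, f i j * (dlt i j k * dlt i j l) := by
  have e : ∀ i j : Fin (d + 1), f i j * (dlt i j k * dlt i j l) =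
      (if k.succ = i then (if l.succ = i then f i j else 0) else 0)
      - (if k.succ = i then (if l.succ = j then f i j else 0) else 0)
      - (if k.succ = j then (if l.succ = i then f i j else 0) else 0)
      + (if k.succ = j then (if l.succ = j then f i j else 0) else 0) := by
    intro i j
    unfold dlt
    split_ifs <;> ring
  simp only [e, Finset.sum_add_distrib, Finset.sum_sub_distrib]
  have e1 : ∑ i, ∑ j, (if k.succ = i then (if l.succ = i then f i j else 0) else 0)
      = if k = l then ∑ j, f k.succ j else 0 := by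
    rw [Finset.sum_eq_single k.succ]
    · by_cases h : k = l
      · subst h; simp
      · rw [if_neg h]
        refine Finset.sum_eq_zero fun j _ => ?_
        rw [if_pos rfl, if_neg]
        intro h'
        exact h (Fin.succ_injective _ h').symm
    · intro b _ hb
      refine Finset.sum_eq_zero fun j _ => ?_
      rw [if_neg (Ne.symm hb)]
    · intro h; exact absurd (Finset.mem_univ _) h
  have e2 : ∑ i, ∑ j, (if k.succ = i then (if l.succ = j then f i j else 0) else 0)
      = f k.succ l.succ := by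
    rw [Finset.sum_eq_single k.succ]
    · simp
    · intro b _ hb
      refine Finset.sum_eq_zero fun j _ => ?_
      rw [if_neg (Ne.symm hb)]
    · intro h; exact absurd (Finset.mem_univ _) h
  have e3 : ∑ i, ∑ j, (if k.succ = j then (if l.succ = i then f i j else 0) else 0)
      = f l.succ k.succ := by
    rw [Finset.sum_eq_single l.succ]
    · simp
    · intro b _ hb
      refine Finset.sum_eq_zero fun j _ => ?_
      rw [if_neg (Ne.symm hb), ite_self]
    · intro h; exact absurd (Finset.mem_univ _) h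
  have e4 : ∑ i, ∑ j, (if k.succ = j then (if l.succ = j then f i j else 0) else 0)
      = if k = l then ∑ j, f k.succ j else 0 := by
    rw [Finset.sum_comm, Finset.sum_eq_single k.succ]
    · by_cases h : k = l
      · subst h; simp [hE]
      · rw [if_neg h]
        refine Finset.sum_eq_zero fun j _ => ?_
        rw [if_pos rfl, if_neg]
        intro h'
        exact h (Fin.succ_injective _ h').symm
    · intro b _ hb
      refine Finset.sum_eq_zero fun j _ => ?_
      rw [if_neg (Ne.symm hb)]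
    · intro h; exact absurd (Finset.mem_univ _) h
  rw [e1, e2, e3, e4, Matrix.add_apply, Matrix.transpose_apply]
  unfold red
  by_cases h : k = l
  · subst h; simp; ring
  · rw [if_neg h, if_neg (Ne.symm h)]; ring

/-- Foster's inequality for Eulerian networks. -/
theorem foster (f : Fin (d + 1) → Fin (d + 1) → ℝ) (hE : ∀ i, ∑ j, f i j = ∑ j, f j i)
    (hf : ∀ i j, 0 ≤ f i j) (hA : IsUnit (red f).det) : ∑ i, ∑ j, f i j * res f i j ≤ 2 * d := by
  refine le_trans (le_of_eq ?_) (trace_inv_le (red f) hA (red_nonneg f hE hf))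
  unfold Matrix.trace
  simp only [Matrix.diag_apply, Matrix.mul_apply]
  have h1 : ∀ k : Fin d, ∑ l, (red f)⁻¹ k l * (red f + (red f)ᵀ) l k
      = ∑ l, ∑ i, ∑ j, f i j * (dlt i j k * ((red f)⁻¹ k l * dlt i j l)) := by
    intro k
    refine Finset.sum_congr rfl fun l _ => ?_
    rw [red_add_transpose f hE, Finset.mul_sum]
    refine Finset.sum_congr rfl fun i _ => ?_
    rw [Finset.mul_sum]
    refine Finset.sum_congr rfl fun j _ => ?_
    ring
  simp only [h1]
  have h2 : ∀ i j : Fin (d + 1), f i j * res f i j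
      = ∑ k, ∑ l, f i j * (dlt i j k * ((red f)⁻¹ k l * dlt i j l)) := by
    intro i j
    unfold res
    simp only [dotProduct, Matrix.mulVec, Finset.mul_sum]
  simp only [h2]
  calc ∑ i, ∑ j, ∑ k, ∑ l, f i j * (dlt i j k * ((red f)⁻¹ k l * dlt i j l))
      = ∑ i, ∑ k, ∑ j, ∑ l, f i j * (dlt i j k * ((red f)⁻¹ k l * dlt i j l)) :=
        Finset.sum_congr rfl fun i _ => Finset.sum_comm
    _ = ∑ k, ∑ i, ∑ j, ∑ l, f i j * (dlt i j k * ((red f)⁻¹ k l * dlt i j l)) := Finset.sum_comm
    _ = ∑ k, ∑ i, ∑ l, ∑ j, f i j * (dlt i j k * ((red f)⁻¹ k l * dlt i j l)) :=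
        Finset.sum_congr rfl fun k _ => Finset.sum_congr rfl fun i _ => Finset.sum_comm
    _ = ∑ k, ∑ l, ∑ i, ∑ j, f i j * (dlt i j k * ((red f)⁻¹ k l * dlt i j l)) :=
        Finset.sum_congr rfl fun k _ => Finset.sum_comm

theorem const_of_energy (f : Fin (d + 1) → Fin (d + 1) → ℝ)
    (hA : IsUnit (red f).det) (φ : Fin (d + 1) → ℝ) (h : ∀ k l, f k l * (φ k - φ l) = 0)
    (k : Fin (d + 1)) : φ k = φ 0 := by
  have hx : red f *ᵥ (fun k : Fin d => φ k.succ - φ 0) = 0 := by
    ext k
    rw [red_mulVec, Pi.zero_apply]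
    refine Finset.sum_eq_zero fun j _ => ?_
    have : ∀ j : Fin (d + 1), ext0 (fun k : Fin d => φ k.succ - φ 0) j = φ j - φ 0 := by
      intro j
      refine Fin.cases ?_ (fun j => ?_) j
      · rw [ext0_zero, sub_self]
      · rw [ext0_succ]
    rw [this, this, ← h k.succ j]
    ring
  have h0 : (fun k : Fin d => φ k.succ - φ 0) = 0 := by
    have h1 : (red f)⁻¹ *ᵥ (red f *ᵥ (fun k : Fin d => φ k.succ - φ 0)) = 0 := by
      rw [hx, Matrix.mulVec_zero]
    rwa [Matrix.mulVec_mulVec, Matrix.nonsing_inv_mul _ hA, Matrix.one_mulVec] at h1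
  refine Fin.cases rfl (fun k => ?_) k
  have := congrFun h0 k
  simp only [Pi.zero_apply] at this
  linarith

/-- The maximum principle. -/
theorem max_principle (f : Fin (d + 1) → Fin (d + 1) → ℝ) (hE : ∀ i, ∑ j, f i j = ∑ j, f j i)
    (hf : ∀ i j, 0 ≤ f i j) (hA : IsUnit (red f).det) (η : Fin (d + 1) → ℝ) (i j : Fin (d + 1))
    (c : ℝ) (hc : 0 ≤ c)
    (h : ∀ k, ∑ l, f k l * (η l - η k) = (if k = i then c else 0) - (if k = j then c else 0))
    (k : Fin (d + 1)) : η k ≤ η j := by
  set φ : Fin (d + 1) → ℝ := fun k => max (η k - η j) 0 with hφ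
  have hφ0 : ∀ k, 0 ≤ φ k := fun k => le_max_right _ _
  have hφj : φ j = 0 := by simp [hφ]
  have h1 : 0 ≤ ∑ k, φ k * ∑ l, f k l * (η l - η k) := by
    refine Finset.sum_nonneg fun k _ => ?_
    rw [h k]
    by_cases hk : k = j
    · rw [hk, hφj, zero_mul]
    · rw [if_neg hk, sub_zero]
      refine mul_nonneg (hφ0 k) ?_
      split_ifs
      · exact hc
      · exact le_rfl
  have h2 : ∑ k, φ k * ∑ l, f k l * (η l - η k) ≤ ∑ k, φ k * ∑ l, f k l * (φ l - φ k) := by
    refine Finset.sum_le_sum fun k _ => ?_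
    rw [Finset.mul_sum, Finset.mul_sum]
    refine Finset.sum_le_sum fun l _ => ?_
    have key : φ k * (η l - η k) ≤ φ k * (φ l - φ k) := by
      rcases eq_or_lt_of_le (hφ0 k) with h0 | h0
      · rw [← h0, zero_mul, zero_mul]
      · refine mul_le_mul_of_nonneg_left ?_ h0.le
        have e1 : φ k = η k - η j := by
          rcases max_choice (η k - η j) 0 with h3 | h3
          · exact h3
          · exact absurd h3 (ne_of_gt h0)
        have e2 : η l - η j ≤ φ l := le_max_left _ _
        rw [e1]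
        linarith
    calc φ k * (f k l * (η l - η k)) = f k l * (φ k * (η l - η k)) := by ring
      _ ≤ f k l * (φ k * (φ l - φ k)) := mul_le_mul_of_nonneg_left key (hf k l)
      _ = φ k * (f k l * (φ l - φ k)) := by ring
  rw [energy f hE φ] at h2
  have h3 : ∑ k, ∑ l, f k l * (φ k - φ l) ^ 2 = 0 := by
    have : 0 ≤ ∑ k, ∑ l, f k l * (φ k - φ l) ^ 2 :=
      Finset.sum_nonneg fun k _ => Finset.sum_nonneg fun l _ => mul_nonneg (hf k l) (sq_nonneg _)
    linarith
  have h4 : ∀ k l, f k l * (φ k - φ l) = 0 := by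
    intro k l
    have h5 := (Finset.sum_eq_zero_iff_of_nonneg (fun k _ => Finset.sum_nonneg fun l _ =>
      mul_nonneg (hf k l) (sq_nonneg (φ k - φ l)))).1 h3 k (Finset.mem_univ k)
    have h6 := (Finset.sum_eq_zero_iff_of_nonneg (fun l _ =>
      mul_nonneg (hf k l) (sq_nonneg (φ k - φ l)))).1 h5 l (Finset.mem_univ l)
    rcases mul_eq_zero.1 h6 with h7 | h7
    · rw [h7, zero_mul]
    · rw [pow_eq_zero_iff two_ne_zero] at h7
      rw [h7, mul_zero]
  have h5 := const_of_energy f hA φ h4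
  have h6 : φ k = 0 := by rw [h5 k, ← h5 j, hφj]
  have h7 : η k - η j ≤ φ k := le_max_left _ _
  linarith

/-- The potential difference is the resistance. -/
theorem pot_eq (f : Fin (d + 1) → Fin (d + 1) → ℝ) (hA : IsUnit (red f).det)
    (η : Fin (d + 1) → ℝ) (i j : Fin (d + 1)) (c : ℝ)
    (h : ∀ k, ∑ l, f k l * (η l - η k) = (if k = i then c else 0) - (if k = j then c else 0)) :
    η j - η i = c * res f i j := by
  set x : Fin d → ℝ := fun k => η k.succ - η 0 with hx
  have hext : ∀ j : Fin (d + 1), ext0 x j = η j - η 0 := by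
    intro j
    refine Fin.cases ?_ (fun j => ?_) j
    · rw [ext0_zero, sub_self]
    · rw [ext0_succ]
  have h1 : red f *ᵥ x = (-c) • dlt i j := by
    ext k
    rw [red_mulVec, Pi.smul_apply, smul_eq_mul]
    have h2 := h k.succ
    have h3 : ∑ l, f k.succ l * (ext0 x k.succ - ext0 x l) = - ∑ l, f k.succ l * (η l - η k.succ) := by
      rw [← Finset.sum_neg_distrib]
      refine Finset.sum_congr rfl fun l _ => ?_
      rw [hext, hext]
      ring
    rw [h3, h2]
    unfold dlt
    split_ifs <;> ring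
  have h2 : x = (-c) • ((red f)⁻¹ *ᵥ dlt i j) := by
    rw [← Matrix.mulVec_smul, ← h1, Matrix.mulVec_mulVec, Matrix.nonsing_inv_mul _ hA,
      Matrix.one_mulVec]
  have h3 : dlt i j ⬝ᵥ x = -c * res f i j := by
    unfold res
    conv_lhs => rw [h2]
    rw [dotProduct_smul, smul_eq_mul]
  rw [dlt_dot, hext, hext] at h3
  linarith

end Pool.Agent.Lib.MP_d2370c_gt.OS
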