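import Pool.Agent.Lib.MP_d2370c_gt.OS.Final

set_option autoImplicit false

/-!
# The circulant simplices with geometric weights
-/

namespace Pool.Agent.Lib.MP_d2370c_gt.OS

open Finset Matrix

variable {d : ℕ}

/-- cyclic geometric weights -/
noncomputable def geoT (d : ℕ) (q : ℝ) (i j : Fin (d + 1)) : ℝ :=
  (1 - q) * q ^ ((j - i - 1 : Fin (d + 1)) : ℕ) / (1 - q ^ (d + 1))

theorem geo_pos {q : ℝ} (h0 : 0 ≤ q) (h1 : q < 1) : 0 < 1 - q ^ (d + 1) := by
  have : q ^ (d + 1) < 1 := pow_lt_one₀ h0 h1 (by omega)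
  linarith

theorem geoT_nonneg {q : ℝ} (h0 : 0 ≤ q) (h1 : q < 1) (i j : Fin (d + 1)) : 0 ≤ geoT d q i j := by
  unfold geoT
  have := geo_pos (d := d) h0 h1
  have h2 : 0 ≤ 1 - q := by linarith
  positivity

theorem sum_pow_fin (q : ℝ) (h1 : q < 1) : ∑ m : Fin (d + 1), (1 - q) * q ^ (m : ℕ) = 1 - q ^ (d + 1) := by
  rw [← Finset.mul_sum, Fin.sum_univ_eq_sum_range (fun m => q ^ m) (d + 1), mul_comm,
    geom_sum_mul_neg]

theorem geoT_row {q : ℝ} (h0 : 0 ≤ q) (h1 : q < 1) (i : Fin (d + 1)) : ∑ j, geoT d q i j = 1 := by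
  have h2 := (geo_pos (d := d) h0 h1).ne'
  unfold geoT
  rw [← Finset.sum_div, div_eq_one_iff_eq h2]
  rw [← sum_pow_fin q h1]
  refine Fintype.sum_equiv ((Equiv.subRight i).trans (Equiv.subRight 1)) _ _ fun j => ?_
  rfl

theorem geoT_col {q : ℝ} (h0 : 0 ≤ q) (h1 : q < 1) (j : Fin (d + 1)) : ∑ i, geoT d q i j = 1 := by
  have h2 := (geo_pos (d := d) h0 h1).ne'
  unfold geoT
  rw [← Finset.sum_div, div_eq_one_iff_eq h2]
  rw [← sum_pow_fin q h1]
  refine Fintype.sum_equiv ((Equiv.subLeft j).trans (Equiv.subRight 1)) _ _ fun i => ?_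
  rfl

theorem geoT_rec {q : ℝ} (h0 : 0 ≤ q) (h1 : q < 1) (i j : Fin (d + 1)) :
    geoT d q i j = (if j = i + 1 then 1 - q else 0) + q * geoT d q (i + 1) j := by
  have h2 := (geo_pos (d := d) h0 h1).ne'
  have h3 : (j - (i + 1) - 1 : Fin (d + 1)) = (j - i - 1) - 1 := by abel
  unfold geoT
  rw [h3]
  by_cases h : j = i + 1
  · subst h
    have h4 : (i + 1 - i - 1 : Fin (d + 1)) = 0 := by abel
    rw [if_pos rfl, h4]
    have h5 : ((0 - 1 : Fin (d + 1)) : ℕ) = d := by
      rw [zero_sub]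
      simp
    rw [h5]
    simp only [Fin.val_zero, pow_zero, mul_one]
    field_simp
    ring
  · rw [if_neg h, zero_add]
    have h4 : (j - i - 1 : Fin (d + 1)) ≠ 0 := by
      intro h5
      apply h
      have : j = (j - i - 1) + (i + 1) := by abel
      rw [this, h5, zero_add]
    have h5 : ((j - i - 1 : Fin (d + 1)) : ℕ) = (((j - i - 1) - 1 : Fin (d + 1)) : ℕ) + 1 := by
      have h6 := Fin.val_sub_one_of_ne_zero h4
      have h7 : ((j - i - 1 : Fin (d + 1)) : ℕ) ≠ 0 := fun h8 => h4 (Fin.ext h8)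
      omega
    rw [h5, pow_succ]
    ring

/-- solving the recursion -/
theorem geo_solve {q : ℝ} (h0 : 0 ≤ q) (h1 : q < 1) (φ g : Fin (d + 1) → ℝ)
    (hg : ∀ i, g i = (1 - q) * φ (i + 1) + q * g (i + 1)) (i : Fin (d + 1)) :
    ∑ j, geoT d q i j * φ j = g i := by
  set h : Fin (d + 1) → ℝ := fun i => ∑ j, geoT d q i j * φ j - g i with hh
  have hrec : ∀ i, h i = q * h (i + 1) := by
    intro i
    have e1 : ∑ j, geoT d q i j * φ j = (1 - q) * φ (i + 1) + q * ∑ j, geoT d q (i + 1) j * φ j := by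
      rw [Finset.mul_sum]
      have : ∀ j, geoT d q i j * φ j = (if j = i + 1 then (1 - q) * φ j else 0) + q * (geoT d q (i + 1) j * φ j) := by
        intro j
        rw [geoT_rec h0 h1 i j]
        split_ifs <;> ring
      simp only [this, Finset.sum_add_distrib, Finset.sum_ite_eq', Finset.mem_univ, if_true]
    simp only [hh]
    rw [e1, hg i]
    ring
  obtain ⟨i0, hi0⟩ := Finite.exists_max (fun i => |h i|)
  have h2 : |h i0| ≤ q * |h i0| := by
    calc |h i0| = q * |h (i0 + 1)| := by rw [hrec i0, abs_mul, abs_of_nonneg h0]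
      _ ≤ q * |h i0| := mul_le_mul_of_nonneg_left (hi0 _) h0
  have h3 : |h i0| = 0 := by
    have := abs_nonneg (h i0)
    nlinarith
  have h4 : |h i| ≤ 0 := h3 ▸ hi0 i
  have h5 : h i = 0 := abs_eq_zero.1 (le_antisymm h4 (abs_nonneg _))
  simp only [hh] at h5
  linarith

/-- unscaled vertices -/
noncomputable def wv (d : ℕ) (q : ℝ) (i : Fin (d + 1)) (k : Fin d) : ℝ :=
  if i = 0 then 1 else if k.succ < i then 1 - q else if k.succ = i then -q else 0

/-- the superbase -/
def sb (d : ℕ) (i : Fin (d + 1)) (k : Fin d) : ℤ :=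
  if i = 0 then -1 else if k.succ = i then 1 else 0

theorem wv_add_sb (q : ℝ) (i : Fin (d + 1)) (k : Fin d) :
    wv d q i k + sb d i k = if k.succ ≤ i then 1 - q else 0 := by
  unfold wv sb
  by_cases hi : i = 0
  · subst hi
    rw [if_pos rfl, if_pos rfl, if_neg]
    · push_cast; ring
    · rw [Fin.le_zero_iff]
      exact Fin.succ_ne_zero k
  · rw [if_neg hi, if_neg hi]
    rcases lt_trichotomy k.succ i with h | h | h
    · rw [if_pos h, if_neg h.ne, if_pos h.le]; push_cast; ring
    · rw [if_neg (not_lt.2 h.ge), if_pos h, if_pos h, if_pos h.le]; push_cast; ring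
    · rw [if_neg (not_lt.2 h.le), if_neg h.ne', if_neg h.ne', if_neg (not_le.2 h)]; push_cast; ring

theorem geo_b {q : ℝ} (h0 : 0 ≤ q) (h1 : q < 1) (i : Fin (d + 1)) (k : Fin d) :
    ∑ j, geoT d q i j * (wv d q j k - wv d q i k) = sb d i k := by
  have e1 : ∑ j, geoT d q i j * (wv d q j k - wv d q i k)
      = ∑ j, geoT d q i j * wv d q j k - wv d q i k := by
    simp only [mul_sub, Finset.sum_sub_distrib]
    rw [← Finset.sum_mul, geoT_row h0 h1, one_mul]
  rw [e1, geo_solve h0 h1 (fun j => wv d q j k) (fun i => if k.succ ≤ i then 1 - q else 0)]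
  · rw [← wv_add_sb q i k]
    ring
  · intro i
    by_cases hi : i = Fin.last d
    · subst hi
      rw [Fin.last_add_one, if_pos (Fin.le_last _)]
      unfold wv
      rw [if_pos rfl, if_neg]
      · ring
      · rw [Fin.le_zero_iff]
        exact Fin.succ_ne_zero k
    · have hi' : (i : ℕ) < d := by
        have h2 := i.is_lt
        have h3 : (i : ℕ) ≠ d := fun h => hi (Fin.ext (by simpa using h))
        omega
      have hv : ((i + 1 : Fin (d + 1)) : ℕ) = i + 1 := Fin.val_add_one_of_lt (Fin.lt_last_iff_ne_last.2 hi)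
      have hne : i + 1 ≠ 0 := by
        intro h
        have := congrArg Fin.val h
        rw [hv] at this
        simp at this
      unfold wv
      rw [if_neg hne]
      have hk : (k.succ : Fin (d + 1)).val = k.val + 1 := Fin.val_succ k
      by_cases h2 : k.succ ≤ i
      · have h3 : k.succ < i + 1 := by
          rw [Fin.lt_def, hv]; rw [Fin.le_def] at h2; omega
        rw [if_pos h2, if_pos h3, if_pos h3.le]
        ring
      · by_cases h3 : k.succ = i + 1
        · rw [if_neg h2, if_neg (not_lt.2 h3.ge), if_pos h3, if_pos h3.le]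
          ring
        · have h4 : ¬ k.succ < i + 1 := by
            rw [Fin.lt_def, hv]; rw [Fin.le_def] at h2; omega
          have h5 : ¬ k.succ ≤ i + 1 := by
            intro h6
            exact h4 (lt_of_le_of_ne h6 h3)
          rw [if_neg h2, if_neg h4, if_neg h3, if_neg h5]
          ring

theorem sb_sum (k : Fin d) : ∑ i, sb d i k = 0 := by
  rw [Fin.sum_univ_succ]
  unfold sb
  rw [if_pos rfl]
  have : ∀ l : Fin d, (if (l.succ : Fin (d + 1)) = 0 then (-1 : ℤ) else if k.succ = l.succ then 1 else 0)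
      = if k = l then 1 else 0 := by
    intro l
    rw [if_neg (Fin.succ_ne_zero l)]
    simp [Fin.succ_inj]
  simp only [this, Finset.sum_ite_eq, Finset.mem_univ, if_true]
  norm_num

theorem sb_gen (z : Fin d → ℤ) (l : Fin d) :
    z l = ∑ i, (Fin.cons 0 z : Fin (d + 1) → ℤ) i * sb d i l := by
  rw [Fin.sum_univ_succ]
  simp only [Fin.cons_zero, zero_mul, zero_add, Fin.cons_succ]
  unfold sb
  have : ∀ k : Fin d, z k * (if (k.succ : Fin (d + 1)) = 0 then (-1 : ℤ) else if l.succ = k.succ then 1 else 0)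
      = if l = k then z k else 0 := by
    intro k
    rw [if_neg (Fin.succ_ne_zero k)]
    by_cases h : l = k
    · subst h; simp
    · rw [if_neg h, if_neg (fun h' => h (Fin.succ_injective _ h'))]; ring
  simp only [this, Finset.sum_ite_eq, Finset.mem_univ, if_true]

/-- barycentric coordinates of the origin -/
noncomputable def rho (d : ℕ) (q D : ℝ) (j : Fin (d + 1)) : ℝ := (1 - q ^ (j : ℕ) / (1 - q ^ (d + 1))) / D

/-- the vertices -/
noncomputable def gv (d : ℕ) (q D : ℝ) (i : Fin (d + 1)) (k : Fin d) : ℝ :=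
  D * wv d q i k - D * ∑ j, rho d q D j * wv d q j k

theorem rho_sum {q : ℝ} (h0 : 0 ≤ q) (h1 : q < 1) (hD : 0 < (d : ℝ) + 1 - 1 / (1 - q)) :
    ∑ j, rho d q ((d : ℝ) + 1 - 1 / (1 - q)) j = 1 := by
  unfold rho
  have h2 := (geo_pos (d := d) h0 h1).ne'
  have h3 : (1 - q) ≠ 0 := by
    have : 0 < 1 - q := by linarith
    exact this.ne'
  rw [← Finset.sum_div, div_eq_one_iff_eq hD.ne', Finset.sum_sub_distrib, ← Finset.sum_div]
  have h4 := sum_pow_fin (d := d) q h1
  rw [← Finset.mul_sum] at h4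
  have h5 : ∑ j : Fin (d + 1), q ^ (j : ℕ) = (1 - q ^ (d + 1)) / (1 - q) := by
    rw [eq_div_iff h3, mul_comm]; exact h4
  rw [h5]
  simp only [Finset.sum_const, Finset.card_univ, Fintype.card_fin, nsmul_eq_mul, mul_one]
  push_cast
  field_simp

/-- The data of the example. -/
noncomputable def exDat (d : ℕ) (q : ℝ) (h0 : 0 ≤ q) (h1 : q < 1)
    (hD : 0 < (d : ℝ) + 1 - 1 / (1 - q)) : Dat d where
  v := gv d q ((d : ℝ) + 1 - 1 / (1 - q))
  b := sb d
  t := fun i j => if i = j then 0 else geoT d q i j / ((d : ℝ) + 1 - 1 / (1 - q))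
  κ := fun _ => 1
  e := 1
  ht := fun i j => by
    split_ifs
    · exact le_rfl
    · exact div_nonneg (geoT_nonneg h0 h1 i j) hD.le
  htd := fun i => if_pos rfl
  hb := fun i l => by
    rw [← geo_b h0 h1 i l]
    refine Finset.sum_congr rfl fun j _ => ?_
    by_cases hij : i = j
    · subst hij
      simp
    · rw [if_neg hij]
      unfold gv
      field_simp
      ring
  hκ := fun _ => le_rfl
  hsum := fun l => by
    simp only [Nat.cast_one, one_mul]
    exact sb_sum l
  he := le_rfl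
  hgen := fun z => ⟨Fin.cons 0 z, fun l => by
    rw [Nat.cast_one, one_mul]
    exact sb_gen z l⟩

theorem coord_zero (d : ℕ) (q : ℝ) (h0 : 0 ≤ q) (h1 : q < 1)
    (hD : 0 < (d : ℝ) + 1 - 1 / (1 - q)) (j : Fin (d + 1)) :
    (exDat d q h0 h1 hD).P.coord j 0 = rho d q ((d : ℝ) + 1 - 1 / (1 - q)) j := by
  set D := (d : ℝ) + 1 - 1 / (1 - q) with hDdef
  set E := exDat d q h0 h1 hD with hE
  have hr := rho_sum h0 h1 hD
  have hv : ∀ i, E.P i = gv d q D i := fun i => rfl
  have h2 : (0 : Fin d → ℝ) = E.P 0 + ∑ i, rho d q D i • (E.P i - E.P 0) := by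
    ext k
    simp only [Pi.zero_apply, Pi.add_apply, Finset.sum_apply, Pi.smul_apply, Pi.sub_apply, smul_eq_mul, hv]
    have h3 : ∑ i, rho d q D i * (gv d q D i k - gv d q D 0 k)
        = ∑ i, rho d q D i * gv d q D i k - gv d q D 0 k := by
      simp only [mul_sub, Finset.sum_sub_distrib]
      rw [← Finset.sum_mul, hr, one_mul]
    have h4 : ∑ i, rho d q D i * gv d q D i k = 0 := by
      unfold gv
      simp only [mul_sub, Finset.sum_sub_distrib]
      rw [← Finset.sum_mul, hr, one_mul, sub_eq_zero, Finset.mul_sum]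
      exact Finset.sum_congr rfl fun i _ => by ring
    rw [h3, h4]
    ring
  rw [h2, coord_add, map_sum, E.P.coord_apply]
  simp only [map_smul, coord_lin, smul_eq_mul, mul_sub, mul_ite, mul_one, mul_zero,
    Finset.sum_sub_distrib, Finset.sum_ite_eq, Finset.mem_univ, if_true]
  by_cases hj : j = 0
  · subst hj
    simp only [if_true]
    rw [hr]
    ring
  · simp [hj]

theorem coord_int (d : ℕ) (q : ℝ) (h0 : 0 ≤ q) (h1 : q < 1)
    (hD : 0 < (d : ℝ) + 1 - 1 / (1 - q)) (x : Fin d → ℤ) (j : Fin (d + 1)) :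
    ((d : ℝ) + 1 - 1 / (1 - q)) * (exDat d q h0 h1 hD).P.coord j (toR x)
      = (1 - q ^ (j : ℕ) / (1 - q ^ (d + 1)))
        + ∑ i, geoT d q i j * ((Fin.cons 0 x : Fin (d + 1) → ℤ) i : ℝ)
        - ((Fin.cons 0 x : Fin (d + 1) → ℤ) j : ℝ) := by
  set D := (d : ℝ) + 1 - 1 / (1 - q) with hDdef
  set E := exDat d q h0 h1 hD with hE
  set X : Fin (d + 1) → ℤ := Fin.cons 0 x with hX
  have h2 : toR x = 0 + ∑ i, (X i : ℝ) • toR (E.b i) := by
    ext l
    simp only [toR, Pi.add_apply, Pi.zero_apply, Finset.sum_apply, Pi.smul_apply, smul_eq_mul, zero_add]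
    have := sb_gen x l
    have h3 : (x l : ℝ) = ((∑ i, X i * sb d i l : ℤ) : ℝ) := by rw [← this]
    rw [h3]
    push_cast
    rfl
  have h3 : E.P.coord j (toR x) = rho d q D j + ∑ i, (X i : ℝ) * (E.t i j - (if j = i then ∑ m, E.t i m else 0)) := by
    rw [h2, coord_add, coord_zero, map_sum]
    congr 1
    refine Finset.sum_congr rfl fun i _ => ?_
    rw [map_smul, smul_eq_mul, lin_b E.P E.b E.t E.hbP]
  have hrow : ∀ i, ∑ m, E.t i m = (1 - geoT d q i i) / D := by
    intro i
    have e1 : ∀ m, E.t i m = (geoT d q i m - (if i = m then geoT d q i m else 0)) / D := by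
      intro m
      show (if i = m then 0 else geoT d q i m / D) = _
      split_ifs <;> ring
    simp only [e1]
    rw [← Finset.sum_div, Finset.sum_sub_distrib, geoT_row h0 h1, Finset.sum_ite_eq]
    simp
  rw [h3, mul_add, Finset.mul_sum]
  have h4 : D * rho d q D j = 1 - q ^ (j : ℕ) / (1 - q ^ (d + 1)) := by
    unfold rho
    field_simp
  have h5 : ∑ i, D * ((X i : ℝ) * (E.t i j - (if j = i then ∑ m, E.t i m else 0)))
      = ∑ i, (geoT d q i j * (X i : ℝ) - (if j = i then (X i : ℝ) else 0)) := by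
    refine Finset.sum_congr rfl fun i _ => ?_
    have e2 : E.t i j = if i = j then 0 else geoT d q i j / D := rfl
    rw [e2, hrow]
    by_cases hij : i = j
    · subst hij
      rw [if_pos rfl, if_pos rfl, if_pos rfl]
      field_simp
      ring
    · rw [if_neg hij, if_neg (Ne.symm hij), if_neg (Ne.symm hij)]
      field_simp
      ring
  rw [h4, h5, Finset.sum_sub_distrib, Finset.sum_ite_eq]
  simp only [Finset.mem_univ, if_true]
  ring

theorem exists_first_max (X : Fin (d + 1) → ℤ) :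
    ∃ n : Fin (d + 1), (∀ i, X i ≤ X n) ∧ ∀ i, i < n → X i ≤ X n - 1 := by
  obtain ⟨m, hm⟩ := Finite.exists_max X
  have hne : (Finset.univ.filter (fun i => X i = X m)).Nonempty := ⟨m, by simp⟩
  refine ⟨(Finset.univ.filter (fun i => X i = X m)).min' hne, ?_, ?_⟩
  · intro i
    have h1 := Finset.min'_mem _ hne
    rw [Finset.mem_filter] at h1
    rw [h1.2]
    exact hm i
  · intro i hi
    have h1 := Finset.min'_mem _ hne
    rw [Finset.mem_filter] at h1
    rw [h1.2]
    have h2 : X i ≠ X m := by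
      intro h3
      have h4 := Finset.min'_le (Finset.univ.filter (fun i => X i = X m)) i (by simp [h3])
      exact absurd hi (not_lt.2 h4)
    have h3 := hm i
    omega

theorem geo_left {q : ℝ} (h0 : 0 ≤ q) (h1 : q < 1) (n : Fin (d + 1)) :
    ∑ i, (if i < n then geoT d q i n else 0) = (1 - q ^ (n : ℕ)) / (1 - q ^ (d + 1)) := by
  have h2 := (geo_pos (d := d) h0 h1).ne'
  have h3 : ∀ i : Fin (d + 1), (if i < n then geoT d q i n else 0)
      = (if (i : ℕ) < n then (1 - q) * q ^ ((n : ℕ) - 1 - i) / (1 - q ^ (d + 1)) else 0) := by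
    intro i
    by_cases h : i < n
    · have h' : (i : ℕ) < n := h
      rw [if_pos h, if_pos h']
      unfold geoT
      congr 3
      have h4 : ((n - i : Fin (d + 1)) : ℕ) = n - i := Fin.sub_val_of_le h.le
      have h5 : (n - i : Fin (d + 1)) ≠ 0 := by
        intro h6
        have := congrArg Fin.val h6
        rw [h4] at this
        simp at this
        omega
      rw [Fin.val_sub_one_of_ne_zero h5, h4]
      omega
    · have h' : ¬ (i : ℕ) < n := h
      rw [if_neg h, if_neg h']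
  simp only [h3]
  rw [Fin.sum_univ_eq_sum_range (fun i => if i < (n : ℕ) then (1 - q) * q ^ ((n : ℕ) - 1 - i) / (1 - q ^ (d + 1)) else 0) (d + 1)]
  rw [← Finset.sum_filter]
  have h4 : (Finset.range (d + 1)).filter (fun i => i < (n : ℕ)) = Finset.range n := by
    ext i
    simp only [Finset.mem_filter, Finset.mem_range]
    have := n.is_lt
    omega
  rw [h4, ← Finset.sum_div, ← Finset.mul_sum, Finset.sum_range_reflect (fun i => q ^ i) n, mul_comm (1 - q),
    geom_sum_mul_neg]

theorem ex_free (d : ℕ) (q : ℝ) (h0 : 0 ≤ q) (h1 : q < 1)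
    (hD : 0 < (d : ℝ) + 1 - 1 / (1 - q)) (x : Fin d → ℤ) :
    toR x ∉ interior (convexHull ℝ (Set.range (exDat d q h0 h1 hD).v)) := by
  intro hx
  have h2 : toR x ∈ interior (convexHull ℝ (Set.range (exDat d q h0 h1 hD).P)) := hx
  rw [(exDat d q h0 h1 hD).P.interior_convexHull] at h2
  obtain ⟨n, hn1, hn2⟩ := exists_first_max (Fin.cons 0 x : Fin (d + 1) → ℤ)
  set X : Fin (d + 1) → ℤ := Fin.cons 0 x with hX
  have h3 : 0 < (exDat d q h0 h1 hD).P.coord n (toR x) := h2 n
  have h4 := coord_int d q h0 h1 hD x n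
  have h5 := mul_pos hD h3
  rw [h4] at h5
  have h6 : ∑ i, geoT d q i n * (X i : ℝ) ≤ ∑ i, (geoT d q i n * (X n : ℝ) - (if i < n then geoT d q i n else 0)) := by
    refine Finset.sum_le_sum fun i _ => ?_
    have hg := geoT_nonneg h0 h1 i n
    split_ifs with h
    · have h7 : (X i : ℝ) ≤ X n - 1 := by exact_mod_cast hn2 i h
      nlinarith
    · have h7 : (X i : ℝ) ≤ X n := by exact_mod_cast hn1 i
      nlinarith
  rw [Finset.sum_sub_distrib, ← Finset.sum_mul, geoT_col h0 h1, one_mul, geo_left h0 h1] at h6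
  have h7 := geo_pos (d := d) h0 h1
  have h8 : (1 - q ^ (n : ℕ) / (1 - q ^ (d + 1))) - (1 - q ^ (n : ℕ)) / (1 - q ^ (d + 1)) ≤ 0 := by
    have : (1 - q ^ (n : ℕ) / (1 - q ^ (d + 1))) - (1 - q ^ (n : ℕ)) / (1 - q ^ (d + 1))
        = - (q ^ (d + 1) / (1 - q ^ (d + 1))) := by
      field_simp
      ring
    rw [this]
    have : 0 ≤ q ^ (d + 1) / (1 - q ^ (d + 1)) := div_nonneg (pow_nonneg h0 _) h7.le
    linarith
  linarith

/-- consecutive entries of opposite sign -/
theorem exists_consec (Y : Fin (d + 1) → ℤ) (hsum : ∑ i, Y i = 0) (hne : Y ≠ 0) :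
    ∃ i j : Fin (d + 1), i < j ∧ Y i * Y j < 0 ∧ ∀ k, i < k → k < j → Y k = 0 := by
  have h1 : ∃ i j : Fin (d + 1), i < j ∧ Y i * Y j < 0 := by
    obtain ⟨a, ha⟩ := Function.ne_iff.1 hne
    simp only [Pi.zero_apply] at ha
    have h2 : ∃ c, Y a * Y c < 0 := by
      by_contra hcon
      push Not at hcon
      have h3 : 0 < ∑ c, Y a * Y c := by
        refine Finset.sum_pos' (fun c _ => hcon c) ⟨a, Finset.mem_univ a, ?_⟩
        have := mul_self_pos.2 ha
        exact this
      rw [← Finset.mul_sum, hsum, mul_zero] at h3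
      exact lt_irrefl _ h3
    obtain ⟨c, hc⟩ := h2
    rcases lt_trichotomy a c with h | h | h
    · exact ⟨a, c, h, hc⟩
    · subst h
      exact absurd hc (not_lt.2 (mul_self_nonneg _))
    · exact ⟨c, a, h, by rw [mul_comm]; exact hc⟩
  obtain ⟨i, j, hij, hY⟩ := h1
  induction hn : ((j : ℕ) - i) using Nat.strong_induction_on generalizing i j with
  | _ n ih =>
    by_cases h : ∀ k, i < k → k < j → Y k = 0
    · exact ⟨i, j, hij, hY, h⟩
    · push Not at h
      obtain ⟨k, hik, hkj, hk⟩ := h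
      have hik' : (i : ℕ) < k := hik
      have hkj' : (k : ℕ) < j := hkj
      by_cases h2 : Y i * Y k < 0
      · exact ih ((k : ℕ) - i) (by omega) i k hik h2 rfl
      · refine ih ((j : ℕ) - k) (by omega) k j hkj ?_ rfl
        have h3 : 0 < Y i * Y k := by
          have hi : Y i ≠ 0 := by
            intro h0
            rw [h0, zero_mul] at hY
            exact lt_irrefl _ hY
          rcases lt_or_eq_of_le (not_lt.1 h2) with h4 | h4
          · exact h4
          · exact absurd h4.symm (mul_ne_zero hi hk)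
        have h4 : 0 < Y i * Y i := by
          apply mul_self_pos.2
          intro h0
          rw [h0, zero_mul] at hY
          exact lt_irrefl _ hY
        by_contra h5
        push Not at h5
        have h6 : (Y i * Y k) * (Y i * Y j) < 0 := mul_neg_of_pos_of_neg h3 hY
        have h7 : (Y i * Y k) * (Y i * Y j) = (Y i * Y i) * (Y k * Y j) := by ring
        rw [h7] at h6
        have h8 : 0 ≤ (Y i * Y i) * (Y k * Y j) := mul_nonneg h4.le h5
        linarith

/-- the value of a direction at a vertex -/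
theorem sum_wv (q : ℝ) (y : Fin d → ℤ) (i : Fin (d + 1)) :
    ∑ l, (y l : ℝ) * wv d q i l
      = (1 - q) * (∑ k, if k ≤ i then ((Fin.cons (-∑ l, y l) y : Fin (d + 1) → ℤ) k : ℝ) else 0)
        - ((Fin.cons (-∑ l, y l) y : Fin (d + 1) → ℤ) i : ℝ) + (1 - q) * ∑ l, (y l : ℝ) := by
  rw [Fin.sum_univ_succ (fun k => if k ≤ i then ((Fin.cons (-∑ l, y l) y : Fin (d + 1) → ℤ) k : ℝ) else 0)]
  simp only [Fin.cons_zero, Fin.cons_succ, Fin.zero_le, if_true]
  refine Fin.cases ?_ (fun i => ?_) i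
  · have h1 : ∀ l : Fin d, wv d q 0 l = 1 := fun l => by unfold wv; simp
    have h2 : ∀ l : Fin d, ¬ (l.succ ≤ (0 : Fin (d + 1))) := by
      intro l h
      rw [Fin.le_zero_iff] at h
      exact Fin.succ_ne_zero l h
    simp only [h1, h2, if_false, Finset.sum_const_zero, Fin.cons_zero, mul_one]
    push_cast
    ring
  · have h1 : ∀ l : Fin d, (y l : ℝ) * wv d q i.succ l
        = (1 - q) * (if l.succ ≤ i.succ then (y l : ℝ) else 0) - (if l = i then (y l : ℝ) else 0) := by
      intro l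
      unfold wv
      rw [if_neg (Fin.succ_ne_zero i)]
      rcases lt_trichotomy l i with h | h | h
      · have h2 : l.succ < i.succ := Fin.succ_lt_succ_iff.2 h
        rw [if_pos h2, if_pos h2.le, if_neg h.ne]
        ring
      · subst h
        simp
        ring
      · have h2 : i.succ < l.succ := Fin.succ_lt_succ_iff.2 h
        rw [if_neg (not_lt.2 h2.le), if_neg h2.ne', if_neg (not_le.2 h2), if_neg h.ne']
        ring
    simp only [h1, Finset.sum_sub_distrib, Finset.sum_ite_eq', Finset.mem_univ, if_true, Fin.cons_succ,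
      ← Finset.mul_sum]
    push_cast
    ring

theorem ex_width (d : ℕ) (q : ℝ) (h0 : 0 ≤ q) (h1 : q < 1)
    (hD : 0 < (d : ℝ) + 1 - 1 / (1 - q)) (y : Fin d → ℤ) (hy : y ≠ 0) :
    ∃ i j, (1 + q) * ((d : ℝ) + 1 - 1 / (1 - q)) ≤
      ∑ l, ((exDat d q h0 h1 hD).v i l - (exDat d q h0 h1 hD).v j l) * (y l : ℝ) := by
  set D := (d : ℝ) + 1 - 1 / (1 - q) with hDdef
  set Y : Fin (d + 1) → ℤ := Fin.cons (-∑ l, y l) y with hY
  have hsum : ∑ i, Y i = 0 := by
    rw [Fin.sum_univ_succ]
    simp [hY]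
  have hne : Y ≠ 0 := by
    intro h
    apply hy
    ext l
    have := congrFun h l.succ
    simpa [hY] using this
  obtain ⟨i, j, hij, hYY, hz⟩ := exists_consec Y hsum hne
  have hval : ∀ a c : Fin (d + 1), ∑ l, ((exDat d q h0 h1 hD).v a l - (exDat d q h0 h1 hD).v c l) * (y l : ℝ)
      = D * ((1 - q) * (∑ k, (if k ≤ a then (Y k : ℝ) else 0)) - (Y a : ℝ)
        - ((1 - q) * (∑ k, (if k ≤ c then (Y k : ℝ) else 0)) - (Y c : ℝ))) := by
    intro a c
    have e1 : ∀ l, ((exDat d q h0 h1 hD).v a l - (exDat d q h0 h1 hD).v c l) * (y l : ℝ)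
        = D * ((y l : ℝ) * wv d q a l - (y l : ℝ) * wv d q c l) := by
      intro l
      show (gv d q D a l - gv d q D c l) * (y l : ℝ) = _
      unfold gv
      ring
    simp only [e1]
    rw [← Finset.mul_sum, Finset.sum_sub_distrib, sum_wv, sum_wv]
    ring
  have hS : ∑ k, (if k ≤ j then (Y k : ℝ) else 0) = ∑ k, (if k ≤ i then (Y k : ℝ) else 0) + (Y j : ℝ) := by
    have e1 : ∀ k, (if k ≤ j then (Y k : ℝ) else 0) = (if k ≤ i then (Y k : ℝ) else 0) + (if k = j then (Y k : ℝ) else 0) := by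
      intro k
      by_cases h2 : k ≤ i
      · rw [if_pos (h2.trans hij.le), if_pos h2, if_neg (lt_of_le_of_lt h2 hij).ne]
        ring
      · by_cases h3 : k = j
        · subst h3
          rw [if_pos le_rfl, if_neg h2, if_pos rfl]
          ring
        · by_cases h4 : k ≤ j
          · rw [if_pos h4, if_neg h2, if_neg h3, hz k (not_le.1 h2) (lt_of_le_of_ne h4 h3)]
            simp
          · rw [if_neg h4, if_neg h2, if_neg h3]
            ring
    simp only [e1, Finset.sum_add_distrib, Finset.sum_ite_eq', Finset.mem_univ, if_true]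
  rcases mul_neg_iff.1 hYY with ⟨hi, hj⟩ | ⟨hi, hj⟩
  · refine ⟨j, i, ?_⟩
    rw [hval, hS]
    have hi' : (1 : ℝ) ≤ Y i := by exact_mod_cast hi
    have hj' : (Y j : ℝ) ≤ -1 := by
      have : Y j ≤ -1 := by omega
      exact_mod_cast this
    have : 1 + q ≤ (1 - q) * (∑ k, (if k ≤ i then (Y k : ℝ) else 0) + (Y j : ℝ)) - (Y j : ℝ)
        - ((1 - q) * (∑ k, (if k ≤ i then (Y k : ℝ) else 0)) - (Y i : ℝ)) := by
      nlinarith
    rw [mul_comm]
    exact mul_le_mul_of_nonneg_left this hD.le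
  · refine ⟨i, j, ?_⟩
    rw [hval, hS]
    have hj' : (1 : ℝ) ≤ Y j := by exact_mod_cast hj
    have hi' : (Y i : ℝ) ≤ -1 := by
      have : Y i ≤ -1 := by omega
      exact_mod_cast this
    have : 1 + q ≤ (1 - q) * (∑ k, (if k ≤ i then (Y k : ℝ) else 0)) - (Y i : ℝ)
        - ((1 - q) * (∑ k, (if k ≤ i then (Y k : ℝ) else 0) + (Y j : ℝ)) - (Y j : ℝ)) := by
      nlinarith
    rw [mul_comm]
    exact mul_le_mul_of_nonneg_left this hD.le

end Pool.Agent.Lib.MP_d2370c_gt.OS
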