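import Pool.Agent.Lib.MP_d2370c_gt.OS.Sharp

set_option autoImplicit false

/-!
# Examples: the sharp members of the class
-/

namespace Pool.Agent.Lib.MP_d2370c_gt.OS

open Finset

variable {d : ℕ}

/-- The circulant example with the optimal parameter. -/
theorem exists_sharp (hd : 1 ≤ d) : ∃ D : Dat d, (∀ i, D.κ i = 1) ∧ D.e = 1 ∧
    (∀ x : Fin d → ℤ, toR x ∉ interior (convexHull ℝ (Set.range D.v))) ∧
    ∀ y : Fin d → ℤ, y ≠ 0 → ∃ i j, 2 * (d : ℝ) + 3 - 2 * √(2 * d + 2) ≤
      ∑ l, (D.v i l - D.v j l) * (y l : ℝ) := by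
  have hd' : (1 : ℝ) ≤ d := by exact_mod_cast hd
  set m : ℝ := √(((d : ℝ) + 1) / 2) with hm
  have hm2 : m * m = ((d : ℝ) + 1) / 2 := Real.mul_self_sqrt (by positivity)
  have hm1 : 1 ≤ m := by
    rw [hm, Real.one_le_sqrt]
    linarith
  have hm0 : 0 < m := by linarith
  have h1q : 1 - (1 - 1 / m) = 1 / m := by ring
  have h0 : (0 : ℝ) ≤ 1 - 1 / m := by
    have : 1 / m ≤ 1 := by rw [div_le_one hm0]; exact hm1
    linarith
  have h1 : (1 - 1 / m : ℝ) < 1 := by
    have : 0 < 1 / m := by positivity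
    linarith
  have hDe : (d : ℝ) + 1 - 1 / (1 - (1 - 1 / m)) = (d : ℝ) + 1 - m := by
    rw [h1q, one_div_one_div]
  have hD : 0 < (d : ℝ) + 1 - 1 / (1 - (1 - 1 / m)) := by
    rw [hDe]
    nlinarith
  refine ⟨exDat d (1 - 1 / m) h0 h1 hD, fun _ => rfl, rfl, ex_free d _ h0 h1 hD, fun y hy => ?_⟩
  obtain ⟨i, j, hij⟩ := ex_width d _ h0 h1 hD y hy
  refine ⟨i, j, le_trans (le_of_eq ?_) hij⟩
  rw [hDe]
  have h4 : √(2 * (d : ℝ) + 2) = 2 * m := by
    rw [Real.sqrt_eq_iff_mul_self_eq (by positivity) (by positivity)]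
    linear_combination (-4) * hm2
  have h5 : (1 + (1 - 1 / m)) * ((d : ℝ) + 1 - m) = 2 * (d + 1) + 1 - 2 * m - ((d : ℝ) + 1) / m := by
    field_simp
    ring
  have h6 : ((d : ℝ) + 1) / m = 2 * m := by
    rw [div_eq_iff hm0.ne']
    linear_combination (-2) * hm2
  rw [h4, h5, h6]
  ring

/-- the star -/
def stV (d : ℕ) (i : Fin (d + 1)) (k : Fin d) : ℝ := if k.succ = i then (d : ℝ) else 0

/-- the star -/
def stB (d : ℕ) (i : Fin (d + 1)) (k : Fin d) : ℤ := if i = 0 then 1 else if k.succ = i then -1 else 0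

/-- the star -/
noncomputable def stT (d : ℕ) (i j : Fin (d + 1)) : ℝ :=
  if (i = 0 ∧ j ≠ 0) ∨ (i ≠ 0 ∧ j = 0) then 1 / (d : ℝ) else 0

theorem stT_symm (i j : Fin (d + 1)) : stT d i j = stT d j i := by
  unfold stT
  by_cases hi : i = 0 <;> by_cases hj : j = 0 <;> simp [hi, hj]

/-- The star as data. -/
noncomputable def starDat (d : ℕ) (hd : 1 ≤ d) : Dat d where
  v := stV d
  b := stB d
  t := stT d
  κ := fun _ => 1
  e := 1
  ht := fun i j => by
    unfold stT
    split_ifs
    · positivity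
    · exact le_rfl
  htd := fun i => by
    unfold stT
    by_cases hi : i = 0 <;> simp [hi]
  hb := fun i l => by
    have hd0 : (d : ℝ) ≠ 0 := by positivity
    refine Fin.cases ?_ (fun i => ?_) i
    · rw [Fin.sum_univ_succ]
      unfold stT stV stB
      simp [Fin.succ_inj, Fin.succ_ne_zero, Finset.sum_ite_eq, hd0]
    · rw [Fin.sum_univ_succ]
      unfold stT stV stB
      by_cases h : l = i
      · subst h
        simp [Fin.succ_ne_zero, hd0]
      · simp [Fin.succ_inj, Fin.succ_ne_zero, h]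
  hκ := fun _ => le_rfl
  hsum := fun l => by
    rw [Fin.sum_univ_succ]
    unfold stB
    simp [Fin.succ_inj, Fin.succ_ne_zero]
  he := le_rfl
  hgen := fun z => ⟨Fin.cons 0 (fun l => - z l), fun l => by
    rw [Fin.sum_univ_succ]
    unfold stB
    simp [Fin.succ_inj, Fin.succ_ne_zero]⟩

/-- The standard simplex. -/
theorem exists_sharp_symm (hd : 1 ≤ d) : ∃ D : Dat d, (∀ i, D.κ i = 1) ∧ D.e = 1 ∧
    (∀ i j, D.t i j = D.t j i) ∧
    (∀ x : Fin d → ℤ, toR x ∉ interior (convexHull ℝ (Set.range D.v))) ∧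
    ∀ y : Fin d → ℤ, y ≠ 0 → ∃ i j, (d : ℝ) ≤ ∑ l, (D.v i l - D.v j l) * (y l : ℝ) := by
  have hd' : (1 : ℝ) ≤ d := by exact_mod_cast hd
  refine ⟨starDat d hd, fun _ => rfl, rfl, fun i j => stT_symm i j, fun x hx => ?_, fun y hy => ?_⟩
  · -- facets
    have hsub1 : ∀ l : Fin d, convexHull ℝ (Set.range (starDat d hd).v) ⊆ {x | 0 ≤ x l} := by
      intro l
      refine convexHull_min ?_ ?_
      · rintro _ ⟨i, rfl⟩
        show 0 ≤ stV d i l
        unfold stV
        split_ifs
        · positivity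
        · exact le_rfl
      · intro a ha b hb s t hs ht _
        show 0 ≤ (s • a + t • b) l
        simp only [Pi.add_apply, Pi.smul_apply, smul_eq_mul]
        exact add_nonneg (mul_nonneg hs ha) (mul_nonneg ht hb)
    have hsub2 : convexHull ℝ (Set.range (starDat d hd).v) ⊆ {x | ∑ l, x l ≤ d} := by
      refine convexHull_min ?_ ?_
      · rintro _ ⟨i, rfl⟩
        show ∑ l, stV d i l ≤ d
        unfold stV
        refine Fin.cases ?_ (fun i => ?_) i
        · simp [Fin.succ_ne_zero]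
        · simp [Fin.succ_inj]
      · intro a ha b hb s t hs ht hst
        show ∑ l, (s • a + t • b) l ≤ d
        simp only [Pi.add_apply, Pi.smul_apply, smul_eq_mul, Finset.sum_add_distrib, ← Finset.mul_sum]
        have ha' : ∑ l, a l ≤ d := ha
        have hb' : ∑ l, b l ≤ d := hb
        calc s * ∑ l, a l + t * ∑ l, b l ≤ s * d + t * d := by gcongr
          _ = d := by rw [← add_mul, hst, one_mul]
    have hpert : ∀ u : Fin d → ℝ, ∃ ε : ℝ, 0 < ε ∧ toR x + ε • u ∈ convexHull ℝ (Set.range (starDat d hd).v) := by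
      intro u
      have hcont : Continuous (fun s : ℝ => toR x + s • u) := by fun_prop
      have hopen : IsOpen ((fun s : ℝ => toR x + s • u) ⁻¹'
          interior (convexHull ℝ (Set.range (starDat d hd).v))) := isOpen_interior.preimage hcont
      have hmem : (0 : ℝ) ∈ (fun s : ℝ => toR x + s • u) ⁻¹' interior (convexHull ℝ (Set.range (starDat d hd).v)) := by
        show toR x + (0 : ℝ) • u ∈ interior (convexHull ℝ (Set.range (starDat d hd).v))
        rw [zero_smul, add_zero]
        exact hx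
      obtain ⟨ε, hε, hball⟩ := Metric.isOpen_iff.1 hopen 0 hmem
      refine ⟨ε / 2, by linarith, interior_subset (hball ?_)⟩
      rw [Metric.mem_ball, Real.dist_eq, sub_zero, abs_of_pos (by linarith)]
      linarith
    have hpos : ∀ l : Fin d, 1 ≤ x l := by
      intro l
      obtain ⟨ε, hε, h⟩ := hpert (-(Pi.single l 1))
      have h2 : 0 ≤ (toR x + ε • (-(Pi.single l (1 : ℝ)) : Fin d → ℝ)) l := hsub1 l h
      simp only [Pi.add_apply, Pi.smul_apply, Pi.neg_apply, Pi.single_eq_same, smul_eq_mul, toR] at h2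
      have h3 : (0 : ℝ) < x l := by linarith
      have h4 : 0 < x l := by exact_mod_cast h3
      omega
    have hlt : (∑ l, (x l : ℝ)) < d := by
      obtain ⟨ε, hε, h⟩ := hpert (fun _ => 1)
      have h2 : ∑ l, (toR x + ε • (fun _ => (1 : ℝ)) : Fin d → ℝ) l ≤ d := hsub2 h
      simp only [Pi.add_apply, Pi.smul_apply, smul_eq_mul, mul_one, toR, Finset.sum_add_distrib,
        Finset.sum_const, Finset.card_univ, Fintype.card_fin, nsmul_eq_mul] at h2
      have : 0 < (d : ℝ) * ε := by positivity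
      linarith
    have hge : (d : ℝ) ≤ ∑ l, (x l : ℝ) := by
      calc (d : ℝ) = ∑ _l : Fin d, (1 : ℝ) := by simp
        _ ≤ ∑ l, (x l : ℝ) := Finset.sum_le_sum fun l _ => by exact_mod_cast hpos l
    linarith
  · obtain ⟨l, hl⟩ := Function.ne_iff.1 hy
    have hv0 : ∀ k, (starDat d hd).v 0 k = 0 := by
      intro k
      show stV d 0 k = 0
      unfold stV
      rw [if_neg (Fin.succ_ne_zero k)]
    have hvl : ∀ k, (starDat d hd).v l.succ k = if k = l then (d : ℝ) else 0 := by
      intro k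
      show stV d l.succ k = _
      unfold stV
      simp [Fin.succ_inj]
    rcases lt_or_gt_of_ne hl with h | h
    · refine ⟨0, l.succ, ?_⟩
      simp only [hv0, hvl, zero_sub, neg_mul, ite_mul, zero_mul, Finset.sum_neg_distrib,
        Finset.sum_ite_eq', Finset.mem_univ, if_true]
      have h2 : (y l : ℝ) ≤ -1 := by
        have : y l ≤ -1 := by simp only [Pi.zero_apply] at h; omega
        exact_mod_cast this
      nlinarith
    · refine ⟨l.succ, 0, ?_⟩
      simp only [hv0, hvl, sub_zero, ite_mul, zero_mul,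
        Finset.sum_ite_eq', Finset.mem_univ, if_true]
      have h2 : (1 : ℝ) ≤ (y l : ℝ) := by
        have : 1 ≤ y l := by simp only [Pi.zero_apply] at h; omega
        exact_mod_cast this
      nlinarith

end Pool.Agent.Lib.MP_d2370c_gt.OS
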